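import Pool.Agent.P.MP_0ff3a5_nt.R2.Geo

/-! Only countably many geometric sequences have separated subset sums. -/

namespace Pool.Agent.P.MP_0ff3a5_nt.R2
open Finset Filter

namespace CountP

variable {τ β τ' β' : ℝ}

lemma second (h : Geo τ β) (m : ℕ) :
    -(11 * fl τ β m) ≤ fl τ β (m + 2) * fl τ β m - fl τ β (m + 1) ^ 2 ∧
      fl τ β (m + 2) * fl τ β m - fl τ β (m + 1) ^ 2 ≤ 9 * fl τ β m := by
  have h1 := h.h1
  have h2 := h.h2
  have p : (1 : ℝ) ≤ fl τ β m := by exact_mod_cast h.gd.pos m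
  have a0 := fl_le τ β m
  have b0 := lt_fl τ β m
  have a1 := fl_le τ β (m + 1)
  have b1 := lt_fl τ β (m + 1)
  have a2 := fl_le τ β (m + 2)
  have b2 := lt_fl τ β (m + 2)
  rw [pow_succ, ← mul_assoc] at a1 b1
  rw [pow_succ, pow_succ, ← mul_assoc, ← mul_assoc] at a2 b2
  generalize τ * β ^ m = y at *
  obtain ⟨f0, e0⟩ : ∃ f, (fl τ β m : ℝ) = y - f := ⟨y - fl τ β m, by ring⟩
  obtain ⟨f1, e1⟩ : ∃ f, (fl τ β (m + 1) : ℝ) = y * β - f := ⟨y * β - fl τ β (m + 1), by ring⟩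
  obtain ⟨f2, e2⟩ : ∃ f, (fl τ β (m + 2) : ℝ) = y * β * β - f :=
    ⟨y * β * β - fl τ β (m + 2), by ring⟩
  have l0 : 0 ≤ f0 := by linarith
  have u0 : f0 ≤ 1 := by linarith
  have l1 : 0 ≤ f1 := by linarith
  have u1 : f1 ≤ 1 := by linarith
  have l2 : 0 ≤ f2 := by linarith
  have u2 : f2 ≤ 1 := by linarith
  have y0 : 0 ≤ y := by linarith
  have key : (fl τ β (m + 2) : ℝ) * fl τ β m - (fl τ β (m + 1) : ℝ) ^ 2 =
      y * (2 * β * f1 - β * β * f0 - f2) + (f0 * f2 - f1 * f1) := by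
    rw [e0, e1, e2]; ring
  have c1 : β * f1 ≤ 2 := by nlinarith
  have c2 : 0 ≤ β * f1 := by positivity
  have c3 : β * β ≤ 4 := by nlinarith
  have c4 : β * β * f0 ≤ 4 := by nlinarith [mul_nonneg (by linarith : 0 ≤ β) (by linarith : 0 ≤ β)]
  have c5 : 0 ≤ β * β * f0 := by positivity
  have c6 : y * (2 * β * f1 - β * β * f0 - f2) ≤ y * 4 :=
    mul_le_mul_of_nonneg_left (by linarith) y0
  have c7 : y * (-5) ≤ y * (2 * β * f1 - β * β * f0 - f2) :=
    mul_le_mul_of_nonneg_left (by linarith) y0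
  have c8 : f0 * f2 ≤ 1 := by nlinarith
  have c9 : 0 ≤ f0 * f2 := by positivity
  have c10 : f1 * f1 ≤ 1 := by nlinarith
  have c11 : 0 ≤ f1 * f1 := by positivity
  constructor
  · have : -(11 * (fl τ β m : ℝ)) ≤
        (fl τ β (m + 2) : ℝ) * fl τ β m - (fl τ β (m + 1) : ℝ) ^ 2 := by rw [key]; linarith
    exact_mod_cast this
  · have : (fl τ β (m + 2) : ℝ) * fl τ β m - (fl τ β (m + 1) : ℝ) ^ 2 ≤
        9 * (fl τ β m : ℝ) := by rw [key]; linarith
    exact_mod_cast this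

lemma close (h : Geo τ β) (h' : Geo τ' β') {m : ℕ} (e0 : fl τ β m = fl τ' β' m)
    (e1 : fl τ β (m + 1) = fl τ' β' (m + 1)) : fl τ β (m + 2) - fl τ' β' (m + 2) ≤ 20 := by
  have a := (second h m).2
  have b := (second h' m).1
  have p := h.gd.pos m
  rw [← e0, ← e1] at b
  by_contra hn
  have := mul_le_mul_of_nonneg_right
    (show (21 : ℤ) ≤ fl τ β (m + 2) - fl τ' β' (m + 2) by omega) p.le
  nlinarith

lemma inL_congr {c c' : ℕ → ℤ} {n : ℕ} (e : ∀ i < n, c i = c' i) {x : ℤ} (h : InL c' n x) :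
    InL c n x := by
  obtain ⟨F, hF, s⟩ := h
  exact ⟨F, hF, (sum_congr rfl fun i hi => e i (mem_range.1 (hF hi))).trans s⟩

lemma step {c c' : ℕ → ℤ} {n : ℕ} (hs : Sep c 40) (e : ∀ i < n, c i = c' i)
    (ho : ∃ x, InL c' n x ∧ InL c' n (x + c' n)) (h1 : c n - c' n ≤ 20) (h2 : c' n - c n ≤ 20) :
    c n = c' n := by
  obtain ⟨x, a, b⟩ := ho
  have t1 : InT c (x + c n) := by simpa using (inL_congr e a).add (F := {n}) (by simp)
  have t2 : InT c (x + c' n) := (inL_congr e b).inT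
  have s1 := hs _ _ t1 t2
  have s2 := hs _ _ t2 t1
  omega

lemma base_le (h : Geo τ β) (h' : Geo τ' β') (e : ∀ n, fl τ β n = fl τ' β' n) : β' ≤ β := by
  by_contra hn
  have hb : 0 < β := by linarith [h.h1]
  obtain ⟨n, hn'⟩ := pow_unbounded_of_one_lt (τ + 1) ((one_lt_div hb).2 (not_le.1 hn))
  have a := fl_le τ β n
  have b := lt_fl τ' β' n
  rw [← e n] at b
  have p : 1 ≤ β ^ n := one_le_pow₀ h.h1.le
  rw [div_pow, lt_div_iff₀ (by linarith)] at hn'
  have q : 0 ≤ β' ^ n := pow_nonneg (by linarith [h'.h1]) n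
  have := mul_le_mul_of_nonneg_right h'.big q
  nlinarith

lemma coef_le (h : Geo τ β) (e : ∀ n, fl τ β n = fl τ' β n) : τ' ≤ τ := by
  by_contra hn
  have d : 0 < τ' - τ := sub_pos.2 (not_le.1 hn)
  obtain ⟨n, hn'⟩ := pow_unbounded_of_one_lt (1 / (τ' - τ)) h.h1
  have a := fl_le τ β n
  have b := lt_fl τ' β n
  rw [← e n] at b
  rw [div_lt_iff₀ d] at hn'
  nlinarith

lemma uniq (h : Geo τ β) (h' : Geo τ' β') (e : ∀ n, fl τ β n = fl τ' β' n) :
    τ = τ' ∧ β = β' := by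
  have hb : β = β' := le_antisymm (base_le h' h fun n => (e n).symm) (base_le h h' e)
  subst hb
  exact ⟨le_antisymm (coef_le h' fun n => (e n).symm) (coef_le h e), rfl⟩

/-- the pairs for which the overlap property holds from `N` on -/
def St (N : ℕ) : Set (ℝ × ℝ) := {p | (Geo p.1 p.2 ∧ Sep (fl p.1 p.2) 40) ∧
  ∀ n ≥ N, ∃ x, InL (fl p.1 p.2) n x ∧ InL (fl p.1 p.2) n (x + fl p.1 p.2 n)}

lemma St_countable (N : ℕ) : (St N).Countable := by
  refine Set.MapsTo.countable_of_injOn (t := Set.univ)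
    (f := fun p : ℝ × ℝ => fun i : Fin (N + 2) => fl p.1 p.2 i) (Set.mapsTo_univ _ _) ?_
    Set.countable_univ
  rintro p ⟨⟨g, s⟩, -⟩ q ⟨⟨g', -⟩, o⟩ e
  have all : ∀ n, fl p.1 p.2 n = fl q.1 q.2 n := by
    intro n
    induction n using Nat.strong_induction_on with
    | _ n ih =>
      by_cases hn : n < N + 2
      · exact congrFun e ⟨n, hn⟩
      · obtain ⟨m, rfl⟩ : ∃ m, n = m + 2 := ⟨n - 2, by omega⟩
        exact step s ih (o _ (by omega)) (close g g' (ih _ (by omega)) (ih _ (by omega)))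
          (close g' g (ih _ (by omega)).symm (ih _ (by omega)).symm)
  exact Prod.ext (uniq g g' all).1 (uniq g g' all).2

end CountP

theorem count : Set.Countable {p : ℝ × ℝ | Geo p.1 p.2 ∧ Sep (fl p.1 p.2) 40} := by
  refine (Set.countable_iUnion CountP.St_countable).mono fun p hp => ?_
  obtain ⟨N, hN⟩ := eventually_atTop.1 hp.1.overlap
  exact Set.mem_iUnion.2 ⟨N, hp, hN⟩

end Pool.Agent.P.MP_0ff3a5_nt.R2
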