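import Pool.Agent.P.MP_0ff3a5_nt.Pattern

/-! Subset sums of a sequence with ratio at most two have a uniform density. -/

namespace Pool.Agent.P.MP_0ff3a5_nt.R2
open Finset Filter

/-- positive, monotone, ratio at most two -/
structure Gd (c : ℕ → ℤ) : Prop where
  pos : ∀ n, 0 < c n
  mono : Monotone c
  dbl : ∀ n, c (n + 1) ≤ 2 * c n

def InT (c : ℕ → ℤ) (x : ℤ) : Prop := ∃ F : Finset ℕ, ∑ k ∈ F, c k = x

def InL (c : ℕ → ℤ) (j : ℕ) (x : ℤ) : Prop := ∃ F ⊆ range j, ∑ k ∈ F, c k = x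

def sg (c : ℕ → ℤ) (n : ℕ) : ℤ := ∑ k ∈ range n, c k

open Classical in
noncomputable def cnt (c : ℕ → ℤ) (x y : ℤ) : ℕ := ((Ico x y).filter (InT c)).card

open Classical in
noncomputable def tau (c : ℕ → ℤ) (j : ℕ) : ℕ := ((Icc 0 (sg c j)).filter (InL c j)).card

open Classical in
noncomputable def Exc (c : ℕ → ℤ) (j : ℕ) (v : ℤ) : Finset ℤ :=
  (Icc v (v + sg c j)).filter fun x => InT c x ∧ ¬ InL c j (x - v)

variable {c : ℕ → ℤ}

lemma sg_succ (c : ℕ → ℤ) (n : ℕ) : sg c (n + 1) = sg c n + c n := sum_range_succ _ _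

lemma Gd.sg_nonneg (h : Gd c) (n : ℕ) : 0 ≤ sg c n := sum_nonneg fun k _ => (h.pos k).le

lemma Gd.sg_mono (h : Gd c) : Monotone (sg c) :=
  monotone_nat_of_le_succ fun n => by have := h.pos n; rw [sg_succ]; omega

lemma InL.inT {j : ℕ} {x : ℤ} (h : InL c j x) : InT c x := let ⟨F, _, e⟩ := h; ⟨F, e⟩

lemma InL.add {j : ℕ} {x : ℤ} (h : InL c j x) {F : Finset ℕ} (hF : ∀ i ∈ F, j ≤ i) :
    InT c (x + ∑ k ∈ F, c k) := by
  obtain ⟨G, hG, e⟩ := h
  refine ⟨G ∪ F, ?_⟩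
  rw [sum_union, e]
  exact disjoint_left.2 fun i h1 h2 => by
    have := mem_range.1 (hG h1); have := hF i h2; omega

lemma Gd.inL (h : Gd c) {j : ℕ} {x : ℤ} (hx : InT c x) (hj : x < c j) : InL c j x := by
  obtain ⟨F, e⟩ := hx
  refine ⟨F, fun i hi => mem_range.2 ?_, e⟩
  by_contra hn
  have h1 : c i ≤ ∑ k ∈ F, c k := single_le_sum (fun k _ => (h.pos k).le) hi
  have h2 := h.mono (not_lt.1 hn)
  omega

lemma cnt_add (c : ℕ → ℤ) {x y z : ℤ} (h1 : x ≤ y) (h2 : y ≤ z) :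
    cnt c x z = cnt c x y + cnt c y z := by
  classical
  unfold cnt
  rw [← Ico_union_Ico_eq_Ico h1 h2, filter_union, card_union_of_disjoint]
  exact disjoint_filter_filter (Ico_disjoint_Ico_consecutive _ _ _)

lemma cnt_le (c : ℕ → ℤ) {x y : ℤ} (h : x ≤ y) : (cnt c x y : ℤ) ≤ y - x := by
  classical
  have : cnt c x y ≤ (Ico x y).card := card_filter_le _ _
  rw [Int.card_Ico] at this
  omega

lemma Gd.exists_X (h : Gd c) (j : ℕ) {y : ℤ} (hy : 0 ≤ y) :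
    ∃ F : Finset ℕ, (∀ i ∈ F, j ≤ i) ∧ y ≤ ∑ k ∈ F, c k ∧ ∑ k ∈ F, c k ≤ y + c j := by
  have h1 : y ≤ ∑ k ∈ Ico j (j + y.toNat), c k := by
    have : (Ico j (j + y.toNat)).card • (1 : ℤ) ≤ ∑ k ∈ Ico j (j + y.toNat), c k :=
      card_nsmul_le_sum (Ico j (j + y.toNat)) c 1 fun k _ => h.pos k
    simp only [Nat.card_Ico, nsmul_eq_mul, mul_one] at this
    omega
  have p := h.pos j
  obtain ⟨F, hF, f1, f2⟩ := (synd (fun n => (h.pos n).le) h.dbl j (j + y.toNat) (by omega)).2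
    (y + c j) (by omega) (by omega)
  exact ⟨F, fun i hi => (mem_Ico.1 (hF hi)).1, by omega, by omega⟩

lemma Gd.cnt_shift (h : Gd c) {j : ℕ} {F : Finset ℕ} (hF : ∀ i ∈ F, j ≤ i) :
    cnt c 0 (c j) ≤ cnt c (∑ k ∈ F, c k) (∑ k ∈ F, c k + c j) := by
  classical
  refine card_le_card_of_injOn (· + ∑ k ∈ F, c k) (fun x hx => ?_) fun a _ b _ e => by simpa using e
  simp only [coe_filter, mem_Ico, Set.mem_ofPred_eq] at hx ⊢
  exact ⟨⟨by omega, by omega⟩, (h.inL hx.2 hx.1.2).add hF⟩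

def Low (c : ℕ → ℤ) (ρ C : ℝ) : Prop :=
  ∀ x y : ℤ, 0 ≤ x → x ≤ y → ρ * (y - x) - C ≤ cnt c x y

lemma scan {ρ : ℝ} (hρ : 0 ≤ ρ) (P : ℤ)
    (h : ∀ x : ℤ, 0 ≤ x → ∃ x', x < x' ∧ x' ≤ x + P ∧ ρ * (x' - x) ≤ cnt c x x') :
    Low c ρ (ρ * P) := by
  intro x y hx hxy
  induction hn : (y - x).toNat using Nat.strong_induction_on generalizing x with
  | _ n ih =>
    obtain ⟨x', h1, h2, h3⟩ := h x hx
    by_cases hc : x' ≤ y
    · have := ih _ (by omega) x' (by omega) hc rfl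
      rw [cnt_add c h1.le hc]
      push_cast
      linarith
    · have a : ((y - x : ℤ) : ℝ) ≤ P := by exact_mod_cast (by omega : y - x ≤ P)
      push_cast at a
      have : (0 : ℝ) ≤ cnt c x y := Nat.cast_nonneg _
      nlinarith

lemma Gd.low0 (h : Gd c) : ∃ ρ C : ℝ, 0 < ρ ∧ Low c ρ C := by
  classical
  have p : (0 : ℝ) < c 0 := by exact_mod_cast h.pos 0
  have p' := h.pos 0
  refine ⟨1 / (c 0 + 1), _, by positivity, scan (by positivity) (c 0 + 1) fun x hx => ?_⟩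
  refine ⟨x + c 0 + 1, by omega, by omega, ?_⟩
  obtain ⟨F, -, f1, f2⟩ := h.exists_X 0 hx
  have : 0 < cnt c x (x + c 0 + 1) :=
    card_pos.2 ⟨_, mem_filter.2 ⟨mem_Ico.2 ⟨f1, by omega⟩, F, rfl⟩⟩
  have : (1 : ℝ) ≤ cnt c x (x + c 0 + 1) := by exact_mod_cast this
  push_cast
  rw [show (x : ℝ) + c 0 + 1 - x = c 0 + 1 by ring, one_div, inv_mul_cancel₀ (by positivity)]
  exact this

lemma Low.le_one {ρ C : ℝ} (h : Low c ρ C) : ρ ≤ 1 := by
  by_contra hn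
  push Not at hn
  obtain ⟨n, hn'⟩ := exists_nat_gt (C / (ρ - 1))
  rw [div_lt_iff₀ (by linarith)] at hn'
  have h1 := h 0 n le_rfl (by omega)
  have h2 : ((cnt c 0 n : ℤ) : ℝ) ≤ ((n : ℤ) - 0 : ℤ) := Int.cast_le.2 (cnt_le c (by omega))
  push_cast at h1 h2
  nlinarith

lemma Gd.dens (h : Gd c) : ∃ d : ℝ, d ≤ 1 ∧ ∀ ε > 0, ∃ C : ℝ, Low c (d - ε) C ∧
    ∀ i, (cnt c 0 (c i) : ℝ) ≤ (d + ε) * c i + C := by
  obtain ⟨ρ0, C0, h0, l0⟩ := h.low0
  let S : Set ℝ := {ρ | ∃ C, Low c ρ C}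
  have bd : BddAbove S := ⟨1, fun ρ ⟨_, l⟩ => l.le_one⟩
  have ne : S.Nonempty := ⟨ρ0, C0, l0⟩
  have d0 : 0 < sSup S := h0.trans_le (le_csSup bd ⟨C0, l0⟩)
  refine ⟨sSup S, csSup_le ne fun ρ ⟨_, l⟩ => l.le_one, fun ε hε => ?_⟩
  obtain ⟨ρ, ⟨C, l⟩, hρ⟩ := exists_lt_of_lt_csSup ne (show sSup S - ε < sSup S by linarith)
  have l' : Low c (sSup S - ε) C := fun x y hx hxy => by
    have a : (0 : ℝ) ≤ (y - x : ℤ) := by exact_mod_cast (by omega : 0 ≤ y - x)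
    push_cast at a
    have := l x y hx hxy
    nlinarith
  refine ⟨C, l', fun i => ?_⟩
  by_contra hn
  push Not at hn
  have p : (0 : ℝ) < c i := by exact_mod_cast h.pos i
  have p' := h.pos i
  obtain ⟨η, hη, e⟩ : ∃ η > 0, (cnt c 0 (c i) : ℝ) = (sSup S + ε) * c i + C + η * (2 * c i) :=
    ⟨(cnt c 0 (c i) - ((sSup S + ε) * c i + C)) / (2 * c i), by
      apply div_pos <;> linarith, by field_simp; ring⟩
  have : sSup S + η ≤ sSup S := by
    refine le_csSup bd ⟨_, scan (by linarith) (2 * c i) fun x hx => ?_⟩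
    obtain ⟨F, hF, f1, f2⟩ := h.exists_X i hx
    refine ⟨∑ k ∈ F, c k + c i, by omega, by omega, ?_⟩
    have a1 : (cnt c 0 (c i) : ℝ) ≤ _ := Nat.cast_le.2 (h.cnt_shift hF)
    have a2 := l' x _ hx f1
    rw [cnt_add c f1 (show _ ≤ _ + c i by omega)]
    generalize ∑ k ∈ F, c k = v at *
    have a3 : (v : ℝ) ≤ x + c i := by exact_mod_cast f2
    push_cast
    nlinarith
  linarith

lemma Gd.tau_succ (h : Gd c) (j : ℕ) : cnt c 0 (c j) + tau c j ≤ tau c (j + 1) := by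
  classical
  have s0 := h.sg_nonneg j
  have p := h.pos j
  have e : tau c j = (((Icc 0 (sg c j)).filter (InL c j)).image (· + c j)).card :=
    (card_image_of_injective _ (add_left_injective _)).symm
  rw [e, cnt, ← card_union_of_disjoint]
  · refine card_le_card fun x hx => ?_
    simp only [mem_union, mem_filter, mem_Ico, mem_image, mem_Icc, sg_succ] at hx ⊢
    rcases hx with ⟨⟨h1, h2⟩, h3⟩ | ⟨y, ⟨⟨h1, h2⟩, F, hF, e⟩, rfl⟩
    · obtain ⟨F, hF, e⟩ := h.inL h3 h2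
      exact ⟨⟨h1, by omega⟩, F, hF.trans (range_subset_range.2 (by omega)), e⟩
    · have hn : j ∉ F := fun hj => by simpa using hF hj
      refine ⟨⟨by omega, by omega⟩, insert j F, ?_, by rw [sum_insert hn, e]; ring⟩
      rw [range_add_one]
      exact insert_subset_insert _ hF
  · refine disjoint_left.2 fun x h1 h2 => ?_
    simp only [mem_filter, mem_Ico, mem_image, mem_Icc] at h1 h2
    obtain ⟨y, ⟨⟨h3, -⟩, -⟩, rfl⟩ := h2
    omega

lemma Gd.tau_low (h : Gd c) {ρ C : ℝ} (l : Low c ρ C) (j : ℕ) : ρ * sg c j - j * C ≤ tau c j := by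
  induction j with
  | zero => simp [sg]
  | succ j ih =>
    have a1 : ((cnt c 0 (c j) + tau c j : ℕ) : ℝ) ≤ _ := Nat.cast_le.2 (h.tau_succ j)
    have a2 := l 0 (c j) le_rfl (h.pos j).le
    rw [sg_succ]
    push_cast at a1 a2 ⊢
    linarith

lemma exc_add {j : ℕ} {F : Finset ℕ} (hF : ∀ i ∈ F, j ≤ i) :
    (Exc c j (∑ k ∈ F, c k)).card + tau c j ≤
      cnt c (∑ k ∈ F, c k) (∑ k ∈ F, c k + sg c j + 1) := by
  classical
  have e : tau c j = (((Icc 0 (sg c j)).filter (InL c j)).image (· + ∑ k ∈ F, c k)).card :=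
    (card_image_of_injective _ (add_left_injective _)).symm
  rw [e, cnt, ← card_union_of_disjoint]
  · refine card_le_card fun x hx => ?_
    simp only [Exc, mem_union, mem_filter, mem_Ico, mem_image, mem_Icc] at hx ⊢
    rcases hx with ⟨⟨h1, h2⟩, h3, -⟩ | ⟨y, ⟨⟨h1, h2⟩, h3⟩, rfl⟩
    · exact ⟨⟨h1, by omega⟩, h3⟩
    · exact ⟨⟨by omega, by omega⟩, h3.add hF⟩
  · refine disjoint_left.2 fun x h1 h2 => ?_
    simp only [Exc, mem_filter, mem_image, mem_Icc] at h1 h2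
    obtain ⟨y, ⟨-, h3⟩, rfl⟩ := h2
    exact h1.2.2 (by simpa using h3)

/-- the largest number of exceptional points in a cylinder below level `s` -/
noncomputable def EX (c : ℕ → ℤ) (s : ℕ) : ℕ :=
  (range (s + 1)).sup fun j => (Ico j s).powerset.sup fun F => (Exc c j (∑ k ∈ F, c k)).card

lemma le_EX {j s : ℕ} (hj : j ≤ s) {F : Finset ℕ} (hF : F ⊆ Ico j s) :
    (Exc c j (∑ k ∈ F, c k)).card ≤ EX c s :=
  le_trans (le_sup (f := fun F => (Exc c j (∑ k ∈ F, c k)).card) (mem_powerset.2 hF))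
    (le_sup (f := fun j => (Ico j s).powerset.sup fun F => (Exc c j (∑ k ∈ F, c k)).card)
      (mem_range.2 (by omega)))

lemma Gd.EX_le (h : Gd c) (ε : ℝ) (hε : 0 < ε) : ∃ C : ℝ, ∀ s m, sg c s < c m →
    (EX c s : ℝ) ≤ 2 * ε * c m + (s + 3) * C + 1 := by
  obtain ⟨d, hd, H⟩ := h.dens
  obtain ⟨C, l, up⟩ := H ε hε
  have C0 : 0 ≤ C := by simpa [cnt] using l 0 0 le_rfl le_rfl
  refine ⟨C, fun s m hm => ?_⟩
  have pm : (0 : ℝ) < c m := by exact_mod_cast h.pos m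
  have key : ∀ j ≤ s, ∀ F ⊆ Ico j s, ((Exc c j (∑ k ∈ F, c k)).card : ℝ) ≤
      2 * ε * c m + (s + 3) * C + 1 := by
    intro j hj F hF
    have a1 : ((_ : ℕ) : ℝ) ≤ _ := Nat.cast_le.2 (exc_add (c := c) fun i hi => (mem_Ico.1 (hF hi)).1)
    have v0 : 0 ≤ ∑ k ∈ F, c k := sum_nonneg fun k _ => (h.pos k).le
    have v1 : ∑ k ∈ F, c k + sg c j ≤ sg c s := by
      have := sum_le_sum_of_subset_of_nonneg hF fun k _ _ => (h.pos k).le
      have := sum_range_add_sum_Ico c hj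
      unfold sg; omega
    have s0 := h.sg_nonneg j
    generalize ∑ k ∈ F, c k = v at *
    have a2 := up m
    rw [cnt_add c v0 (by omega), cnt_add c (show v ≤ v + sg c j + 1 by omega) (by omega)] at a2
    have a3 := l 0 v le_rfl v0
    have a4 := l (v + sg c j + 1) (c m) (by omega) (by omega)
    have a5 := h.tau_low l j
    have a6 : (j : ℝ) * C ≤ s * C := by gcongr
    push_cast at a1 a2 a3 a4
    nlinarith
  have : EX c s ≤ ⌊2 * ε * c m + (s + 3) * C + 1⌋₊ :=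
    Finset.sup_le fun j hj => Finset.sup_le fun F hF =>
      Nat.le_floor (key j (by have := mem_range.1 hj; omega) F (mem_powerset.1 hF))
  exact (Nat.cast_le.2 this).trans (Nat.floor_le (by positivity))

end Pool.Agent.P.MP_0ff3a5_nt.R2
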