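import Pool.Agent.P.MP_0ff3a5_nt.R2.Pisot
import Pool.Agent.P.MP_0ff3a5_nt.R2.Count

/-! From close subset sums in one parity class to completeness. -/

namespace Pool.Agent.P.MP_0ff3a5_nt.R2
open Finset Filter Topology Polynomial

variable {t α : ℝ}

lemma fl_sub (t α : ℝ) (N k : ℕ) : fl (t * α ^ N) (α ^ 2) k = fl t α (N + 2 * k) := by
  unfold fl
  rw [pow_add, pow_mul, mul_assoc]

lemma sum_sub (t α : ℝ) (N : ℕ) (F : Finset ℕ) :
    ∑ k ∈ F, fl (t * α ^ N) (α ^ 2) k = ∑ n ∈ F.image (N + 2 * ·), fl t α n := by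
  rw [sum_image fun a _ b _ e => by simpa using e]
  simp only [fl_sub]

lemma ev_geo (h1 : 1 < α) (h2 : α ^ 2 < 2) (ht : 0 < t) (Z : ℤ) : ∀ᶠ N in atTop,
    Geo (t * α ^ N) (α ^ 2) ∧ fl t α N < fl t α (N + 1) ∧ Z < fl t α N := by
  have T := (tendsto_pow_atTop_atTop_of_one_lt h1).const_mul_atTop ht
  filter_upwards [T.eventually_ge_atTop 1, T.eventually_ge_atTop (2 / (2 - α ^ 2) + 1),
    T.eventually_ge_atTop (1 / (α - 1)), T.eventually_ge_atTop (Z + 1)] with N a b c d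
  refine ⟨geo_of (by nlinarith) h2 a ?_, ?_, ?_⟩
  · rw [← le_sub_iff_add_le, div_le_iff₀ (by linarith)] at b
    linarith
  · rw [div_le_iff₀ (by linarith)] at c
    have e1 := fl_le t α N
    have e2 := lt_fl t α (N + 1)
    rw [pow_succ] at e2
    exact_mod_cast (by nlinarith : (fl t α N : ℝ) < fl t α (N + 1))
  · exact_mod_cast (by linarith [lt_fl t α N] : (Z : ℝ) < fl t α N)

/-- two sums of terms of index at least `M` and parity `i` differ by `d` -/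
def Pr (u : ℕ → ℤ) (i : ℕ) (d : ℤ) (M : ℕ) : Prop := ∃ F G : Finset ℕ,
  (∀ n ∈ F, M ≤ n ∧ n % 2 = i) ∧ (∀ n ∈ G, M ≤ n ∧ n % 2 = i) ∧ ∑ n ∈ G, u n = ∑ n ∈ F, u n + d

lemma exists_d (h1 : 1 < α) (h2 : α ^ 2 < 2) (ht : 0 < t) {i D : ℕ} (hi : i < 2)
    (h : ∀ M, Geo (t * α ^ (2 * M + i)) (α ^ 2) → ¬ Sep (fl (t * α ^ (2 * M + i)) (α ^ 2)) D) :
    ∃ d : ℕ, 1 ≤ d ∧ d ≤ D ∧ ∀ M, Pr (fl t α) i d M := by
  by_contra hn
  push Not at hn
  have a : ∀ᶠ M in atTop, ∀ d ∈ Icc 1 D, ¬ Pr (fl t α) i d M := by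
    refine (eventually_all_finset _).2 fun d hd => ?_
    obtain ⟨M, hM⟩ := hn d (mem_Icc.1 hd).1 (mem_Icc.1 hd).2
    refine eventually_atTop.2 ⟨M, fun M' hM' ⟨F, G, f, g, e⟩ => hM ⟨F, G, fun n hn => ?_,
      fun n hn => ?_, e⟩⟩
    · exact ⟨hM'.trans (f n hn).1, (f n hn).2⟩
    · exact ⟨hM'.trans (g n hn).1, (g n hn).2⟩
  obtain ⟨M, hM⟩ := eventually_atTop.1 (a.and (ev_geo h1 h2 ht 0))
  refine h M (hM _ (by omega)).2.1 ?_
  rintro _ _ ⟨F, rfl⟩ ⟨G, rfl⟩ ⟨l1, l2⟩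
  rw [sum_sub, sum_sub] at l1 l2
  have im : ∀ F : Finset ℕ, ∀ n ∈ F.image (2 * M + i + 2 * ·), M ≤ n ∧ n % 2 = i := fun F n hn => by
    obtain ⟨k, -, rfl⟩ := mem_image.1 hn
    omega
  refine (hM M le_rfl).1 (∑ n ∈ G.image (2 * M + i + 2 * ·), fl t α n -
    ∑ n ∈ F.image (2 * M + i + 2 * ·), fl t α n).toNat (mem_Icc.2 (by omega))
    ⟨_, _, im F, im G, by omega⟩

lemma exists_ap {u : ℕ → ℤ} {i : ℕ} {d : ℤ} (h : ∀ M, Pr u i d M) (M L : ℕ) :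
    ∃ (b : ℤ) (M' : ℕ), ∀ j ≤ L, ∃ F : Finset ℕ, (∀ n ∈ F, M ≤ n ∧ n < M' ∧ n % 2 = i) ∧
      ∑ n ∈ F, u n = b + j * d := by
  induction L with
  | zero => exact ⟨0, 0, fun j hj => ⟨∅, by simp, by simp [show j = 0 by omega]⟩⟩
  | succ L ih =>
    obtain ⟨b, M', H⟩ := ih
    obtain ⟨G, G', g, g', e⟩ := h (M + M')
    obtain ⟨R, hR⟩ := (G ∪ G').exists_nat_subset_range
    have un : ∀ j ≤ L, ∀ G₀ ⊆ G ∪ G', ∃ F : Finset ℕ,
        (∀ n ∈ F, M ≤ n ∧ n < M' + R ∧ n % 2 = i) ∧ ∑ n ∈ F, u n = b + j * d + ∑ n ∈ G₀, u n := by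
      intro j hj G₀ hG
      obtain ⟨F, f, s⟩ := H j hj
      have p : ∀ n ∈ G₀, (M + M' ≤ n ∧ n % 2 = i) ∧ n < R := fun n hn =>
        ⟨(mem_union.1 (hG hn)).elim (g n) (g' n), mem_range.1 (hR (hG hn))⟩
      refine ⟨F ∪ G₀, fun n hn => ?_, ?_⟩
      · rcases mem_union.1 hn with hn | hn
        · have := f n hn; omega
        · have := p n hn; omega
      · rw [sum_union, s]
        exact disjoint_left.2 fun n a b => by have := f n a; have := p n b; omega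
    refine ⟨b + ∑ n ∈ G, u n, M' + R, fun j hj => ?_⟩
    rcases (show j ≤ L ∨ j = L + 1 by omega) with hj | rfl
    · obtain ⟨F, f, s⟩ := un j hj G subset_union_left
      exact ⟨F, f, by rw [s]; ring⟩
    · obtain ⟨F, f, s⟩ := un L le_rfl G' subset_union_right
      exact ⟨F, f, by rw [s, e]; push_cast; ring⟩

lemma complete (h1 : 1 < α) (h2 : α ^ 2 < 2) (ht : 0 < t) {i d : ℕ} (hi : i < 2) (hd : 1 ≤ d)
    (h : ∀ M, Pr (fl t α) i d M)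
    (loc : ∀ r : ℤ, ∃ F : Finset ℤ, (∀ x ∈ F, ∃ n : ℕ, x = ⌊t * α ^ n⌋) ∧ ∑ x ∈ F, x ≡ r [ZMOD d]) :
    ∃ N : ℤ, ∀ m ≥ N, ∃ F : Finset ℤ, (∀ x ∈ F, ∃ n : ℕ, x = ⌊t * α ^ n⌋) ∧ ∑ x ∈ F, x = m := by
  choose R r1 r2 using loc
  have nn : ∀ r, ∀ x ∈ R r, 0 ≤ x := fun r x hx => by
    obtain ⟨n, rfl⟩ := r1 r x hx
    exact Int.floor_nonneg.2 (by positivity)
  have n2 : ∀ r, 0 ≤ ∑ x ∈ R r, x := fun r => sum_nonneg (nn r)
  obtain ⟨Z, hZ⟩ : ∃ Z, ∀ r ∈ Ico (0 : ℤ) d, ∑ x ∈ R r, x ≤ Z :=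
    ⟨_, fun r hr => single_le_sum (f := fun r => ∑ x ∈ R r, x) (fun r _ => n2 r) hr⟩
  obtain ⟨M, hM⟩ := eventually_atTop.1 (ev_geo h1 h2 ht Z)
  have mono : ∀ a b, M ≤ a → a < b → fl t α a < fl t α b := by
    intro a b ha hab
    induction b, hab using Nat.le_induction with
    | base => exact (hM a ha).2.1
    | succ b hb ih => exact ih.trans (hM b (by omega)).2.1
  have gd := (hM (2 * M + 1 - i) (by omega)).1.gd
  set K := fl (t * α ^ (2 * M + 1 - i)) (α ^ 2) 0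
  have K0 : 0 < K := gd.pos 0
  obtain ⟨b, M', H⟩ := exists_ap h M (Z + K).toNat
  refine ⟨b + Z + K, fun m hm => ?_⟩
  obtain ⟨B, -, b1, b2⟩ := gd.exists_X 0 (show 0 ≤ m - b - Z - K by omega)
  rw [sum_sub] at b1 b2
  have im : ∀ n ∈ B.image (2 * M + 1 - i + 2 * ·), M ≤ n ∧ n % 2 ≠ i := fun n hn => by
    obtain ⟨k, -, rfl⟩ := mem_image.1 hn
    omega
  generalize B.image (2 * M + 1 - i + 2 * ·) = B' at b1 b2 im
  set s := m - b - ∑ n ∈ B', fl t α n with hs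
  have d0 : (0 : ℤ) < d := by omega
  have z1 := hZ (s % d) (mem_Ico.2 ⟨Int.emod_nonneg _ d0.ne', Int.emod_lt_of_pos _ d0⟩)
  have z2 := n2 (s % d)
  obtain ⟨j, hj⟩ := ((r2 (s % d)).trans (Int.mod_modEq s d)).dvd
  have j0 : 0 ≤ j := nonneg_of_mul_nonneg_right (hj ▸ by omega) d0
  have j1 : j ≤ d * j := le_mul_of_one_le_left j0 (by omega)
  obtain ⟨F, f, e⟩ := H j.toNat (by omega)
  have ge : ∀ n ∈ B' ∪ F, M ≤ n := fun n hn =>
    (mem_union.1 hn).elim (fun a => (im n a).1) fun a => (f n a).1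
  refine ⟨R (s % d) ∪ (B' ∪ F).image (fl t α), fun x hx => ?_, ?_⟩
  · rcases mem_union.1 hx with hx | hx
    · exact r1 _ x hx
    · obtain ⟨n, -, rfl⟩ := mem_image.1 hx
      exact ⟨n, rfl⟩
  · rw [sum_union, sum_image, sum_union, e, Int.toNat_of_nonneg j0]
    · linarith
    · exact disjoint_left.2 fun n a b => (im n a).2 (f n b).2.2
    · intro a ha b hb e
      rcases lt_trichotomy a b with l | l | l
      · exact absurd e (mono a b (ge a ha) l).ne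
      · exact l
      · exact absurd e (mono b a (ge b hb) l).ne'
    · refine disjoint_left.2 fun x a b => ?_
      obtain ⟨n, hn, rfl⟩ := mem_image.1 b
      have := single_le_sum (f := fun x => x) (nn _) a
      have := (hM n (ge n hn)).2.2
      omega

lemma exists_parity (h1 : 1 < α) (h2 : α ^ 2 < 2) (ha : IsAlgebraic ℚ α)
    (hp : ¬ (IsIntegral ℤ α ∧ ∀ γ : ℂ, aeval γ (minpoly ℚ α) = 0 → γ ≠ α → ‖γ‖ < 1)) :
    ∃ D : ℕ, ∀ t > 0, ∃ i < 2, ∀ M, Geo (t * α ^ (2 * M + i)) (α ^ 2) →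
      ¬ Sep (fl (t * α ^ (2 * M + i)) (α ^ 2)) D := by
  obtain ⟨D, H⟩ := sep_tendsto (β := α ^ 2) (by nlinarith) h2 (ha.pow 2)
  refine ⟨D, fun t ht => ?_⟩
  by_contra hn
  push Not at hn
  refine hp (pisot h1 ht ha (tendsto_def.2 fun S hS => ?_))
  obtain ⟨M0, g0, s0⟩ := hn 0 (by omega)
  obtain ⟨M1, g1, s1⟩ := hn 1 (by omega)
  obtain ⟨A, hA⟩ := eventually_atTop.1 (H _ g0 s0 hS)
  obtain ⟨B, hB⟩ := eventually_atTop.1 (H _ g1 s1 hS)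
  refine eventually_atTop.2 ⟨2 * (M0 + M1 + A + B) + 1, fun n hn => ?_⟩
  obtain ⟨k, rfl | rfl⟩ := Nat.even_or_odd' n
  · have := hA (k - M0) (by omega)
    beta_reduce at this ⊢
    rwa [mul_assoc, ← pow_mul, ← pow_add, show 2 * M0 + 0 + 2 * (k - M0) = 2 * k by omega] at this
  · have := hB (k - M1) (by omega)
    beta_reduce at this ⊢
    rwa [mul_assoc, ← pow_mul, ← pow_add,
      show 2 * M1 + 1 + 2 * (k - M1) = 2 * k + 1 by omega] at this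

lemma count' : Set.Countable {p : ℝ × ℝ | 1 < p.2 ∧ ∃ N : ℕ, Geo (p.1 * p.2 ^ N) (p.2 ^ 2) ∧
    Sep (fl (p.1 * p.2 ^ N) (p.2 ^ 2)) 40} := by
  have : ∀ N : ℕ, Set.Countable {p : ℝ × ℝ | 1 < p.2 ∧ Geo (p.1 * p.2 ^ N) (p.2 ^ 2) ∧
      Sep (fl (p.1 * p.2 ^ N) (p.2 ^ 2)) 40} := fun N => by
    refine Set.MapsTo.countable_of_injOn (f := fun p : ℝ × ℝ => (p.1 * p.2 ^ N, p.2 ^ 2))
      (fun p hp => hp.2) (fun p hp q hq e => ?_) count
    obtain ⟨e1, e2⟩ := Prod.mk.inj e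
    have a : 0 < p.2 := zero_lt_one.trans hp.1
    have b : 0 < q.2 := zero_lt_one.trans hq.1
    have c : p.2 = q.2 := (pow_left_inj₀ a.le b.le two_ne_zero).1 e2
    rw [c] at e1
    exact Prod.ext (mul_right_cancel₀ (by positivity) e1) c
  refine (Set.countable_iUnion this).mono fun p hp => ?_
  obtain ⟨a, N, b⟩ := hp
  exact Set.mem_iUnion.2 ⟨N, a, b⟩

end Pool.Agent.P.MP_0ff3a5_nt.R2
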