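import Pool.Agent.P.MP_0ff3a5_nt.R2.Per

/-! Integer parts of a geometric progression with ratio below two. -/

namespace Pool.Agent.P.MP_0ff3a5_nt.R2
open Finset Filter Asymptotics

noncomputable def fl (τ β : ℝ) (n : ℕ) : ℤ := ⌊τ * β ^ n⌋

structure Geo (τ β : ℝ) : Prop where
  h1 : 1 < β
  h2 : β < 2
  big : 1 ≤ τ
  gd : Gd (fl τ β)

/-- no two subset sums are at a distance between `1` and `D` -/
def Sep (c : ℕ → ℤ) (D : ℤ) : Prop := ∀ x y, InT c x → InT c y → ¬ (1 ≤ y - x ∧ y - x ≤ D)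

variable {τ β : ℝ}

lemma fl_le (τ β : ℝ) (n : ℕ) : (fl τ β n : ℝ) ≤ τ * β ^ n := Int.floor_le _

lemma lt_fl (τ β : ℝ) (n : ℕ) : τ * β ^ n - 1 < fl τ β n := Int.sub_one_lt_floor _

lemma geo_of (h1 : 1 < β) (h2 : β < 2) (t1 : 1 ≤ τ) (t2 : 2 ≤ (2 - β) * (τ - 1)) : Geo τ β := by
  have p : ∀ n, 1 ≤ τ * β ^ n := fun n => one_le_mul_of_one_le_of_one_le t1 (one_le_pow₀ h1.le)
  refine ⟨h1, h2, t1, fun n => Int.floor_pos.2 (p n), fun a b h => Int.floor_le_floor ?_,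
    s_double h1 h2 t1 t2⟩
  exact mul_le_mul_of_nonneg_left (pow_le_pow_right₀ h1.le h) (by linarith)

lemma ev_le (h1 : 1 < β) {x y : ℝ} (h : x < y) (A B : ℝ) :
    ∀ᶠ n : ℕ in atTop, x * β ^ n + A + B * n ≤ y * β ^ n := by
  have t0 := (isLittleO_pow_const_const_pow_of_one_lt (R := ℝ) 0 h1).const_mul_left A
  have t1 := (isLittleO_pow_const_const_pow_of_one_lt (R := ℝ) 1 h1).const_mul_left B
  filter_upwards [(t0.add t1).bound (show 0 < y - x by linarith)] with n hn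
  have p : 0 < β ^ n := pow_pos (by linarith) n
  rw [Real.norm_eq_abs, Real.norm_eq_abs, abs_of_pos p, pow_zero, pow_one] at hn
  have := le_abs_self (A * 1 + B * n)
  linarith

lemma sg_bd (h1 : 1 < β) (τ : ℝ) (n : ℕ) :
    τ / (β - 1) * β ^ n - τ / (β - 1) - n ≤ sg (fl τ β) n ∧
      (sg (fl τ β) n : ℝ) ≤ τ / (β - 1) * β ^ n - τ / (β - 1) := by
  induction n with
  | zero => simp [sg]
  | succ n ih =>
    have e : τ / (β - 1) * β ^ (n + 1) = τ / (β - 1) * β ^ n + τ * β ^ n := by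
      have : β - 1 ≠ 0 := by linarith
      field_simp; ring
    have := fl_le τ β n
    have := lt_fl τ β n
    rw [sg_succ, e]
    push_cast
    constructor <;> linarith [ih.1, ih.2]

lemma Geo.EX_o (h : Geo τ β) (k : ℕ) :
    (fun n => (EX (fl τ β) (n + k) : ℝ)) =o[atTop] fun n => β ^ n := by
  refine o_shift (a := fun n => (EX (fl τ β) n : ℝ)) (IsLittleO.of_bound fun ε hε => ?_) k
  have h1 := h.h1
  have t1 := h.big
  obtain ⟨K, hK⟩ := pow_unbounded_of_one_lt (1 / (β - 1) + 1) h1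
  have pK : 0 < β ^ K := pow_pos (by linarith) K
  obtain ⟨C, hC⟩ := h.gd.EX_le (ε / (4 * τ * β ^ K)) (by positivity)
  filter_upwards [ev_le h1 (show ε / 2 < ε by linarith) (3 * C + 1) C] with n hn
  have p : 1 ≤ β ^ n := one_le_pow₀ h1.le
  have a1 := (sg_bd h1 τ n).2
  have a2 := lt_fl τ β (n + K)
  have a3 := fl_le τ β (n + K)
  have a4 : 1 ≤ τ * β ^ n := one_le_mul_of_one_le_of_one_le t1 p
  have a5 : 0 ≤ τ / (β - 1) := div_nonneg (by linarith) (by linarith)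
  have a6 : τ * β ^ n * (1 / (β - 1) + 1) ≤ τ * β ^ n * β ^ K := by gcongr
  have a7 : τ * β ^ n * (1 / (β - 1) + 1) = τ / (β - 1) * β ^ n + τ * β ^ n := by ring
  rw [pow_add, ← mul_assoc] at a2 a3
  have a8 := hC n (n + K) (by exact_mod_cast (by linarith : (sg (fl τ β) n : ℝ) < fl τ β (n + K)))
  have a9 : 2 * (ε / (4 * τ * β ^ K)) * (fl τ β (n + K) : ℝ) ≤
      2 * (ε / (4 * τ * β ^ K)) * (τ * β ^ n * β ^ K) := by gcongr
  have e : 2 * (ε / (4 * τ * β ^ K)) * (τ * β ^ n * β ^ K) = ε / 2 * β ^ n := by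
    field_simp; ring
  rw [Real.norm_natCast, Real.norm_eq_abs, abs_of_pos (by linarith)]
  linarith

lemma one_lt_inv (h : Geo τ β) : τ < τ / (β - 1) := by
  have := h.h1; have := h.h2; have := h.big
  rw [lt_div_iff₀ (by linarith)]; nlinarith

/-- From some point on every term is a difference of two sums of earlier terms. -/
lemma Geo.overlap (h : Geo τ β) :
    ∀ᶠ n in atTop, ∃ x, InL (fl τ β) n x ∧ InL (fl τ β) n (x + fl τ β n) := by
  classical
  obtain ⟨ρ, C, hρ, l⟩ := h.gd.low0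
  have h1 := h.h1
  have m := one_lt_inv h
  have hε : 0 < ρ * (τ / (β - 1) - τ) / 4 := by have := sub_pos.2 m; positivity
  filter_upwards [(h.EX_o 0).bound hε, ev_le h1 m (τ / (β - 1)) 1, ev_le h1
    (show ρ * (τ / (β - 1) - τ) / 2 < ρ * (τ / (β - 1) - τ) by linarith)
    (ρ * (τ / (β - 1)) + C + 1) ρ] with n e1 e2 e3
  by_contra hn
  push Not at hn
  have a1 := (sg_bd h1 τ n).1
  have a2 := fl_le τ β n
  have a3 : fl τ β n ≤ sg (fl τ β) n := by
    exact_mod_cast (by linarith : (fl τ β n : ℝ) ≤ sg (fl τ β) n)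
  have a4 := l 0 (sg (fl τ β) n - fl τ β n) le_rfl (by omega)
  have p := h.gd.pos n
  have a5 : cnt (fl τ β) 0 (sg (fl τ β) n - fl τ β n) ≤
      (Exc (fl τ β) n (∑ k ∈ ∅, fl τ β k)).card + (Exc (fl τ β) n (∑ k ∈ ∅, fl τ β k)).card := by
    refine card_le2 (s := 0) (s' := fl τ β n) fun x hx => ?_
    obtain ⟨b1, b2⟩ := mem_filter.1 hx
    obtain ⟨b3, b4⟩ := mem_Ico.1 b1
    by_cases hc : InL (fl τ β) n x
    · refine Or.inr (mem_Exc.2 ⟨by simp; omega, ?_, by simpa using hn x hc⟩)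
      simpa using hc.add (F := {n}) (by simp)
    · exact Or.inl (mem_Exc.2 ⟨by simp; omega, by simpa using b2, by simpa using hc⟩)
  have a6 := le_EX (c := fl τ β) (le_refl n) (empty_subset _)
  have a7 : (cnt (fl τ β) 0 (sg (fl τ β) n - fl τ β n) : ℝ) ≤ 2 * EX (fl τ β) n := by
    exact_mod_cast (by omega : _ ≤ 2 * EX (fl τ β) n)
  rw [Real.norm_natCast, Real.norm_eq_abs, abs_of_pos (pow_pos (by linarith) n), add_zero] at e1
  have a8 : ρ * (τ / (β - 1) * β ^ n - τ / (β - 1) - n - τ * β ^ n) ≤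
      ρ * (sg (fl τ β) n - fl τ β n) := by gcongr
  push_cast at a4
  nlinarith

end Pool.Agent.P.MP_0ff3a5_nt.R2
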