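import Pool.Agent.P.MP_0ff3a5_nt.R2.Dens

/-! Near periods of the set of subset sums on a window. -/

namespace Pool.Agent.P.MP_0ff3a5_nt.R2
open Finset Filter Asymptotics

open Classical in
/-- the points of the window `[0, s]` at which the shift by `g` fails -/
noncomputable def Bad (c : ℕ → ℤ) (s g : ℤ) : Finset ℤ :=
  (Icc 0 s).filter fun x => InT c x ∧ 0 ≤ x + g ∧ x + g ≤ s ∧ ¬ InT c (x + g)

noncomputable def bb (c : ℕ → ℤ) (s g : ℤ) : ℕ := (Bad c s g).card + (Bad c s (-g)).card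

variable {c : ℕ → ℤ}

lemma mem_Bad {s g x : ℤ} : x ∈ Bad c s g ↔
    (0 ≤ x ∧ x ≤ s) ∧ InT c x ∧ 0 ≤ x + g ∧ x + g ≤ s ∧ ¬ InT c (x + g) := by
  simp [Bad]

lemma mem_Exc {j : ℕ} {v x : ℤ} : x ∈ Exc c j v ↔
    (v ≤ x ∧ x ≤ v + sg c j) ∧ InT c x ∧ ¬ InL c j (x - v) := by
  simp [Exc]

lemma card_le2 {A B B' : Finset ℤ} {s s' : ℤ} (h : ∀ x ∈ A, x + s ∈ B ∨ x + s' ∈ B') :
    A.card ≤ B.card + B'.card := by
  refine (card_le_card (t := B.image (· - s) ∪ B'.image (· - s')) fun x hx => ?_).trans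
    ((card_union_le _ _).trans (add_le_add card_image_le card_image_le))
  rcases h x hx with h | h
  · exact mem_union_left _ (mem_image.2 ⟨_, h, by ring⟩)
  · exact mem_union_right _ (mem_image.2 ⟨_, h, by ring⟩)

lemma bad_step {s g h : ℤ} {A : Finset ℤ} (hA : ∀ x ∈ A, x ∈ Bad c s (g + h) ∧ 0 ≤ x + g ∧
    x + g ≤ s) : A.card ≤ (Bad c s g).card + (Bad c s h).card := by
  refine card_le2 (s := 0) (s' := g) fun x hx => ?_
  obtain ⟨h1, h2, h3⟩ := hA x hx
  obtain ⟨a1, a2, a3, a4, a5⟩ := mem_Bad.1 h1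
  by_cases hc : InT c (x + g)
  · exact Or.inr (mem_Bad.2 ⟨⟨h2, h3⟩, hc, by omega, by omega, by rwa [add_assoc]⟩)
  · exact Or.inl (by rw [add_zero]; exact mem_Bad.2 ⟨a1, a2, h2, h3, hc⟩)

lemma bad_add {s g h : ℤ} (hs : |g| + |h| ≤ s) :
    (Bad c s (g + h)).card ≤ 2 * (Bad c s g).card + 2 * (Bad c s h).card := by
  classical
  rw [← card_filter_add_card_filter_not (s := Bad c s (g + h)) fun x => 0 ≤ x + g ∧ x + g ≤ s]
  have h1 := bad_step (c := c) (s := s) (g := g) (h := h)
    (A := (Bad c s (g + h)).filter fun x => 0 ≤ x + g ∧ x + g ≤ s) fun x hx => mem_filter.1 hx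
  have h2 := bad_step (c := c) (s := s) (g := h) (h := g)
    (A := (Bad c s (g + h)).filter fun x => ¬ (0 ≤ x + g ∧ x + g ≤ s)) fun x hx => by
      obtain ⟨a, b⟩ := mem_filter.1 hx
      refine ⟨by rwa [add_comm h], ?_⟩
      obtain ⟨a1, -, a3, a4, -⟩ := mem_Bad.1 a
      rcases abs_cases g with e | e <;> rcases abs_cases h with e' | e' <;> omega
  omega

lemma bad_nmul (s g : ℤ) (j : ℕ) : (Bad c s (j * g)).card ≤ j * (Bad c s g).card := by
  induction j with
  | zero =>
    rw [zero_mul, nonpos_iff_eq_zero, card_eq_zero]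
    refine eq_empty_of_forall_notMem fun x hx => ?_
    obtain ⟨-, a, -, -, b⟩ := mem_Bad.1 hx
    exact b (by simpa using a)
  | succ j ih =>
    have h := bad_step (c := c) (s := s) (g := g) (h := j * g) (A := Bad c s (g + j * g))
      fun x hx => by
        refine ⟨hx, ?_⟩
        obtain ⟨⟨a1, a2⟩, -, a3, a4, -⟩ := mem_Bad.1 hx
        rcases le_total 0 g with e | e
        · have := mul_nonneg (Int.natCast_nonneg j) e
          omega
        · have := mul_nonpos_of_nonneg_of_nonpos (Int.natCast_nonneg j) e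
          omega
    rw [show ((j + 1 : ℕ) : ℤ) * g = g + j * g by push_cast; ring, add_mul]
    omega

lemma bad_ext {s s' g h : ℤ} {H : ℕ} (hg : 0 < g) (hs : |h| + g ≤ s') (hH : s ≤ H * g) :
    (Bad c s h).card ≤ (H + 1) * (H * bb c s g + (Bad c s' h).card) := by
  classical
  have key : ∀ j ∈ range (H + 1), ((Bad c s h).filter fun x => (min x (x + h) / g).toNat = j).card ≤
      H * bb c s g + (Bad c s' h).card := by
    intro j hj
    have hj : j ≤ H := by have := mem_range.1 hj; omega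
    have b1 := bad_nmul (c := c) s g j
    have b2 := bad_nmul (c := c) s (-g) j
    have b3 : j * bb c s g ≤ H * bb c s g := Nat.mul_le_mul_right _ hj
    have b4 : j * bb c s g = j * (Bad c s g).card + j * (Bad c s (-g)).card := mul_add _ _ _
    set A := (Bad c s h).filter fun x => (min x (x + h) / g).toNat = j with hA
    have pos : ∀ x ∈ A, 0 ≤ min x (x + h) - j * g ∧ min x (x + h) - j * g < g ∧ 0 ≤ j * g := by
      intro x hx
      obtain ⟨a, b⟩ := mem_filter.1 hx
      obtain ⟨⟨a1, a2⟩, -, a3, a4, -⟩ := mem_Bad.1 a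
      have m0 : 0 ≤ min x (x + h) := le_min a1 a3
      have e : (j : ℤ) = min x (x + h) / g := by have := Int.ediv_nonneg m0 hg.le; omega
      have e1 := Int.emod_add_ediv_mul (min x (x + h)) g
      have e2 := Int.emod_nonneg (min x (x + h)) hg.ne'
      have e3 := Int.emod_lt_of_pos (min x (x + h)) hg
      rw [← e] at e1
      exact ⟨by omega, by omega, by positivity⟩
    rw [← card_filter_add_card_filter_not (s := A) fun x => InT c (x - j * g)]
    have c1 : (A.filter fun x => InT c (x - j * g)).card ≤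
        (Bad c s' h).card + (Bad c s (j * g)).card := by
      refine card_le2 (s := -(j * g)) (s' := h - j * g) fun x hx => ?_
      obtain ⟨a, b⟩ := mem_filter.1 hx
      obtain ⟨p1, p2, p3⟩ := pos x a
      obtain ⟨⟨a1, a2⟩, -, a3, a4, a5⟩ := mem_Bad.1 (mem_filter.1 a).1
      have q : 0 ≤ x - j * g ∧ x - j * g ≤ s' ∧ 0 ≤ x - j * g + h ∧ x - j * g + h ≤ s' := by
        rcases abs_cases h with e | e <;> rcases min_cases x (x + h) with e' | e' <;> omega
      by_cases hc : InT c (x - j * g + h)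
      · refine Or.inr (mem_Bad.2 ⟨by omega, ?_, by omega, by omega, ?_⟩)
        · rwa [show x + (h - j * g) = x - j * g + h by ring]
        · rwa [show x + (h - j * g) + j * g = x + h by ring]
      · exact Or.inl (mem_Bad.2 ⟨by omega, b, by omega, by omega, hc⟩)
    have c2 : (A.filter fun x => ¬ InT c (x - j * g)).card ≤ (Bad c s (j * -g)).card := by
      refine card_le_card fun x hx => ?_
      obtain ⟨a, b⟩ := mem_filter.1 hx
      obtain ⟨p1, p2, p3⟩ := pos x a
      obtain ⟨a1, a2, a3, a4, -⟩ := mem_Bad.1 (mem_filter.1 a).1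
      have := min_le_left x (x + h)
      rw [mul_neg]
      exact mem_Bad.2 ⟨a1, a2, by omega, by omega, b⟩
    omega
  have := card_le_mul_card_image_of_maps_to (s := Bad c s h) (t := range (H + 1))
    (f := fun x => (min x (x + h) / g).toNat) (fun x hx => by
      obtain ⟨⟨a1, a2⟩, -, a3, a4, -⟩ := mem_Bad.1 hx
      have : min x (x + h) / g ≤ H := Int.ediv_le_of_le_mul hg ((min_le_left _ _).trans (by omega))
      exact mem_range.2 (by omega)) _ key
  rwa [card_range, mul_comm] at this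

lemma bb_neg (s g : ℤ) : bb c s (-g) = bb c s g := by rw [bb, bb, neg_neg, add_comm]

lemma bb_add {s g h : ℤ} (hs : |g| + |h| ≤ s) : bb c s (g + h) ≤ 2 * bb c s g + 2 * bb c s h := by
  have h1 := bad_add (c := c) hs
  have h2 := bad_add (c := c) (g := -g) (h := -h) (by simpa using hs)
  rw [← neg_add] at h2
  unfold bb
  omega

lemma bb_mul (s g a : ℤ) : bb c s (a * g) ≤ a.natAbs * bb c s g := by
  have key : ∀ j : ℕ, bb c s (j * g) ≤ j * bb c s g := fun j => by
    have h1 := bad_nmul (c := c) s g j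
    have h2 := bad_nmul (c := c) s (-g) j
    rw [mul_neg] at h2
    unfold bb
    rw [mul_add]
    omega
  obtain ⟨j, rfl | rfl⟩ := a.eq_nat_or_neg
  · simpa using key j
  · simpa [bb_neg] using key j

lemma bb_ext {s s' g h : ℤ} {H : ℕ} (hg : 0 < g) (hs : |h| + g ≤ s') (hH : s ≤ H * g) :
    bb c s h ≤ (H + 1) * (2 * H) * bb c s g + (H + 1) * bb c s' h := by
  have h1 := bad_ext (c := c) hg hs hH
  have h2 := bad_ext (c := c) (h := -h) hg (by simpa using hs) hH
  have : bb c s h = (Bad c s h).card + (Bad c s (-h)).card := rfl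
  have : bb c s' h = (Bad c s' h).card + (Bad c s' (-h)).card := rfl
  nlinarith

lemma bb_one (n : ℕ) : bb c (sg c (n + 1)) (c n) ≤ 2 * EX c (n + 1) := by
  have h1 : (Bad c (sg c (n + 1)) (c n)).card ≤ (Exc c n (∑ k ∈ ∅, c k)).card := by
    refine card_le_card fun x hx => ?_
    obtain ⟨a1, a2, a3, a4, a5⟩ := mem_Bad.1 hx
    rw [sg_succ] at a4
    refine mem_Exc.2 ⟨by simp; omega, a2, fun h => a5 ?_⟩
    simpa using h.add (F := {n}) (by simp)
  have h2 : (Bad c (sg c (n + 1)) (-c n)).card ≤ (Exc c n (∑ k ∈ {n}, c k)).card := by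
    refine card_le_card fun x hx => ?_
    obtain ⟨a1, a2, a3, a4, a5⟩ := mem_Bad.1 hx
    rw [sg_succ] at a1
    refine mem_Exc.2 ⟨by simp; omega, a2, fun h => a5 ?_⟩
    simpa [sub_eq_add_neg] using h.inT
  have h3 := le_EX (c := c) (Nat.le_add_right n 1) (empty_subset _)
  have h4 := le_EX (c := c) (Nat.le_add_right n 1) (F := {n}) (by simp)
  unfold bb
  omega

lemma bad_diff {n s : ℕ} (hn : n ≤ s) {F G : Finset ℕ} (hF : F ⊆ Ico n s) (hG : G ⊆ Ico n s) :
    (Bad c (sg c n) (∑ k ∈ G, c k - ∑ k ∈ F, c k)).card ≤ 2 * EX c s := by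
  have h1 : (Bad c (sg c n) (∑ k ∈ G, c k - ∑ k ∈ F, c k)).card ≤
      (Exc c n (∑ k ∈ ∅, c k)).card + (Exc c n (∑ k ∈ F, c k)).card := by
    refine card_le2 (s := 0) (s' := ∑ k ∈ G, c k) fun x hx => ?_
    obtain ⟨a1, a2, a3, a4, a5⟩ := mem_Bad.1 hx
    by_cases hc : InL c n x
    · refine Or.inr (mem_Exc.2 ⟨by omega, hc.add fun i hi => (mem_Ico.1 (hG hi)).1, fun h => a5 ?_⟩)
      rw [← add_sub_assoc]
      exact h.inT
    · exact Or.inl (mem_Exc.2 ⟨by simpa using a1, by simpa using a2, by simpa using hc⟩)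
  have h3 := le_EX (c := c) hn (empty_subset _)
  have h4 := le_EX (c := c) hn hF
  omega

lemma bb_diff {n s : ℕ} (hn : n ≤ s) {F G : Finset ℕ} (hF : F ⊆ Ico n s) (hG : G ⊆ Ico n s) :
    bb c (sg c n) (∑ k ∈ G, c k - ∑ k ∈ F, c k) ≤ 4 * EX c s := by
  have h1 := bad_diff (c := c) hn hF hG
  have h2 := bad_diff (c := c) hn hG hF
  unfold bb
  rw [neg_sub]
  omega

/-- `g n` is a near period on the window `[0, sg c (n + k)]` -/
def NP (c : ℕ → ℤ) (β : ℝ) (k : ℕ) (g : ℕ → ℤ) : Prop :=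
  (fun n => (bb c (sg c (n + k)) (g n) : ℝ)) =o[atTop] fun n => β ^ n

variable {β : ℝ} {k : ℕ} {g h : ℕ → ℤ}

lemma o_of_le {a : ℕ → ℕ} {b u : ℕ → ℝ} (hb : b =o[atTop] u) (h : ∀ᶠ n in atTop, (a n : ℝ) ≤ b n) :
    (fun n => (a n : ℝ)) =o[atTop] u := by
  refine IsBigO.trans_isLittleO (IsBigO.of_bound' ?_) hb
  filter_upwards [h] with n hn
  rw [Real.norm_natCast]
  exact hn.trans (le_abs_self _)

lemma NP.neg (hg : NP c β k g) : NP c β k fun n => -g n := by
  simpa only [NP, bb_neg] using hg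

lemma NP.add (hg : NP c β k g) (hh : NP c β k h)
    (hs : ∀ᶠ n in atTop, |g n| + |h n| ≤ sg c (n + k)) : NP c β k fun n => g n + h n := by
  refine o_of_le ((hg.const_mul_left 2).add (hh.const_mul_left 2)) ?_
  filter_upwards [hs] with n hn
  exact_mod_cast bb_add hn

lemma NP.mul (hg : NP c β k g) (a : ℤ) : NP c β k fun n => a * g n := by
  refine o_of_le (hg.const_mul_left a.natAbs) (Eventually.of_forall fun n => ?_)
  exact_mod_cast bb_mul _ _ _

lemma o_shift {a : ℕ → ℝ} (ha : a =o[atTop] fun n => β ^ n) (l : ℕ) :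
    (fun n => a (n + l)) =o[atTop] fun n => β ^ n := by
  have := ha.comp_tendsto (tendsto_add_atTop_nat l)
  refine IsLittleO.trans_isBigO this ?_
  simp only [Function.comp_def, pow_add, mul_comm _ (β ^ l)]
  exact isBigO_const_mul_self _ _ _

lemma NP.shift (hg : NP c β k g) (l : ℕ) : NP c β (l + k) fun n => g (n + l) := by
  simpa only [NP, add_assoc] using o_shift hg l

lemma NP.ext (hh : NP c β k h) (hg : NP c β (k + 1) g) (H : ℕ)
    (hs : ∀ᶠ n in atTop, 0 < g n ∧ |h n| + g n ≤ sg c (n + k) ∧ sg c (n + (k + 1)) ≤ H * g n) :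
    NP c β (k + 1) h := by
  refine o_of_le ((hg.const_mul_left ((H + 1) * (2 * H))).add (hh.const_mul_left (H + 1))) ?_
  filter_upwards [hs] with n hn
  exact_mod_cast bb_ext hn.1 hn.2.1 hn.2.2

lemma NP.sum {D : ℕ} {G : ℕ → ℕ → ℤ} (hG : ∀ l < D, NP c β k (G l))
    (hs : ∀ᶠ n in atTop, ∑ l ∈ range D, |G l n| ≤ sg c (n + k)) :
    NP c β k fun n => ∑ l ∈ range D, G l n := by
  induction D with
  | zero =>
    refine o_of_le (isLittleO_zero _ _) (Eventually.of_forall fun n => ?_)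
    simpa using bb_mul (c := c) (sg c (n + k)) 0 0
  | succ D ih =>
    simp only [sum_range_succ] at hs ⊢
    refine (ih (fun l hl => hG l (by omega)) ?_).add (hG D (by omega)) ?_
    · filter_upwards [hs] with n hn
      linarith [abs_nonneg (G D n)]
    · filter_upwards [hs] with n hn
      linarith [abs_sum_le_sum_abs (fun l => G l n) (range D)]

end Pool.Agent.P.MP_0ff3a5_nt.R2
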