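import Pool.Agent.P.MP_0ff3a5_nt.R2.Rel

/-! An algebraic number whose scaled powers have fractional parts tending to zero is Pisot. -/

namespace Pool.Agent.P.MP_0ff3a5_nt.R2
open Finset Filter Topology Polynomial

variable {t α : ℝ}

lemma tendsto_comb {K : Type} [NormedField K] {f : ℕ → K} (hf : Tendsto f atTop (𝓝 0)) (q : ℕ → K)
    (L : ℕ) : Tendsto (fun n => ∑ l ∈ range L, q l * f (n + l)) atTop (𝓝 0) := by
  have := tendsto_finsetSum (range L) fun l _ =>
    (hf.comp (tendsto_add_atTop_nat l)).const_mul (q l)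
  simpa using this

lemma rec_min (hf : Tendsto (fun n : ℕ => Int.fract (t * α ^ n)) atTop (𝓝 0)) :
    ∀ᶠ n in atTop, ∑ l ∈ range ((minpoly ℚ α).natDegree + 1),
      (minpoly ℚ α).coeff l * (fl t α (n + l) : ℚ) = 0 := by
  obtain ⟨⟨b, hb⟩, H⟩ := IsLocalization.exist_integer_multiples (nonZeroDivisors ℤ)
    (range ((minpoly ℚ α).natDegree + 1)) (minpoly ℚ α).coeff
  have b0 : (b : ℚ) ≠ 0 := by exact_mod_cast nonZeroDivisors.ne_zero hb
  choose! ρ hρ using fun i hi => RingHom.mem_rangeS.1 (H i hi)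
  simp only [eq_intCast, algebraMap_int_eq, zsmul_eq_mul] at hρ
  have h0 : ∑ l ∈ range ((minpoly ℚ α).natDegree + 1), (ρ l : ℝ) * α ^ l = 0 := by
    have := minpoly.aeval ℚ α
    rw [aeval_eq_sum_range] at this
    rw [← mul_zero (b : ℝ), ← this, mul_sum]
    refine sum_congr rfl fun l hl => ?_
    have : (ρ l : ℝ) = b * ((minpoly ℚ α).coeff l : ℝ) := by exact_mod_cast hρ l hl
    rw [this, Rat.smul_def, mul_assoc]
  have h1 := (tendsto_comb hf (fun l => (ρ l : ℝ)) ((minpoly ℚ α).natDegree + 1)).abs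
  filter_upwards [h1.eventually_lt_const (show |(0 : ℝ)| < 1 by simp)] with n hn
  rw [← abs_neg, ← rel_eq t h0 n] at hn
  have h2 := Int.abs_lt_one_iff.1 (by exact_mod_cast hn)
  refine mul_left_cancel₀ b0 ?_
  have h3 : ((∑ l ∈ range ((minpoly ℚ α).natDegree + 1), ρ l * fl t α (n + l) : ℤ) : ℚ) = 0 := by
    rw [h2]; rfl
  push_cast at h3
  rw [mul_zero, ← h3, mul_sum]
  exact sum_congr rfl fun l hl => by rw [hρ l hl, mul_assoc]

lemma no_short (h1 : 1 < α) (ht : 0 < t)
    (hf : Tendsto (fun n : ℕ => Int.fract (t * α ^ n)) atTop (𝓝 0)) {d : ℕ}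
    (hd : (minpoly ℚ α).natDegree = d + 1) {q : ℕ → ℂ} (hq : q d = 1) :
    ¬ ∀ᶠ n in atTop, ∑ l ∈ range (d + 1), q l * (fl t α (n + l) : ℂ) = 0 := by
  intro h
  obtain ⟨L, hL⟩ := (Algebra.linearMap ℚ ℂ).exists_leftInverse_of_injective
    (LinearMap.ker_eq_bot.2 (algebraMap ℚ ℂ).injective)
  have L1 : L 1 = 1 := by simpa using LinearMap.congr_fun hL 1
  have z : ∑ l ∈ range (d + 1), (L (q l) : ℝ) * α ^ l = 0 := by
    have a := (tendsto_comb hf (fun l => (L (q l) : ℝ)) (d + 1)).abs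
    rw [abs_zero] at a
    have : t * |∑ l ∈ range (d + 1), (L (q l) : ℝ) * α ^ l| ≤ 0 := by
      refine ge_of_tendsto a ?_
      filter_upwards [h] with n hn
      have b1 := congrArg L hn
      simp only [map_sum, map_zero, mul_comm (q _), ← zsmul_eq_mul, map_zsmul] at b1
      have b2 : ∑ l ∈ range (d + 1), (L (q l) : ℝ) * fl t α (n + l) = 0 := by
        simp only [zsmul_eq_mul, mul_comm _ (L _)] at b1
        exact_mod_cast b1
      simp only [fract_eq, mul_sub, sum_sub_distrib, sub_eq_zero] at b2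
      have b3 : ∑ l ∈ range (d + 1), (L (q l) : ℝ) * (t * α ^ (n + l)) =
          t * α ^ n * ∑ l ∈ range (d + 1), (L (q l) : ℝ) * α ^ l := by
        rw [mul_sum]; exact sum_congr rfl fun l _ => by ring
      have p : 1 ≤ α ^ n := one_le_pow₀ h1.le
      rw [← b2, b3, abs_mul, abs_of_pos (show 0 < t * α ^ n by positivity)]
      exact mul_le_mul_of_nonneg_right (le_mul_of_one_le_right ht.le p) (abs_nonneg _)
    exact abs_nonpos_iff.1 (nonpos_of_mul_nonpos_right this ht)
  have := Fintype.linearIndependent_iff.1 (linearIndependent_pow (K := ℚ) α) (fun i => L (q i))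
    (by rw [Fin.sum_univ_eq_sum_range fun i => L (q i) • α ^ i, hd]; simpa [Rat.smul_def] using z)
    ⟨d, by omega⟩
  simp [hq, L1] at this

theorem pisot (h1 : 1 < α) (ht : 0 < t) (ha : IsAlgebraic ℚ α)
    (hf : Tendsto (fun n : ℕ => Int.fract (t * α ^ n)) atTop (𝓝 0)) :
    IsIntegral ℤ α ∧ ∀ γ : ℂ, aeval γ (minpoly ℚ α) = 0 → γ ≠ α → ‖γ‖ < 1 := by
  have hi := ha.isIntegral
  obtain ⟨d, hd⟩ : ∃ d, (minpoly ℚ α).natDegree = d + 1 :=
    ⟨_, (Nat.succ_pred_eq_of_pos (minpoly.natDegree_pos hi)).symm⟩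
  obtain ⟨n0, hr⟩ := eventually_atTop.1 (rec_min hf)
  have key : ∀ γ : ℂ, aeval γ (minpoly ℚ α) = 0 → ∃ q : ℕ → ℂ,
      (γ ≠ α → ∑ l ∈ range (d + 1), q l * α ^ l = 0) ∧
      (∑ l ∈ range (d + 1), q l * fl t α (n0 + l) ≠ 0) ∧ ∀ n ≥ n0,
        ∑ l ∈ range (d + 1), q l * fl t α (n + 1 + l) =
          γ * ∑ l ∈ range (d + 1), q l * fl t α (n + l) := by
    intro γ hγ
    have m : ((minpoly ℚ α).map (algebraMap ℚ ℂ)).Monic := (minpoly.monic hi).map _
    obtain ⟨Q, e⟩ : X - C γ ∣ (minpoly ℚ α).map (algebraMap ℚ ℂ) :=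
      dvd_iff_isRoot.2 (by rwa [IsRoot, eval_map_algebraMap])
    have mQ : Q.Monic := (monic_X_sub_C γ).of_mul_monic_left (e ▸ m)
    have dQ : Q.natDegree = d := by
      have := congrArg natDegree e
      rw [(minpoly.monic hi).natDegree_map, (monic_X_sub_C γ).natDegree_mul mQ,
        natDegree_X_sub_C] at this
      omega
    have rc : ∀ n ≥ n0, ∑ l ∈ range (d + 1), Q.coeff l * fl t α (n + 1 + l) =
        γ * ∑ l ∈ range (d + 1), Q.coeff l * fl t α (n + l) := by
      intro n hn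
      have a : ∑ l ∈ range (d + 1 + 1), ((X - C γ) * Q).coeff l * (fl t α (n + l) : ℂ) = 0 := by
        have := congrArg (algebraMap ℚ ℂ) (hr n hn)
        rw [← e]
        simpa [hd] using this
      simp only [sub_mul, coeff_sub, coeff_C_mul, sum_sub_distrib, sub_eq_zero] at a
      rw [sum_range_succ', sum_range_succ (n := d + 1),
        coeff_eq_zero_of_natDegree_lt (p := Q) (by omega)] at a
      simp only [coeff_X_mul, coeff_X_mul_zero, zero_mul, add_zero, mul_zero] at a
      simp only [add_assoc, add_comm 1, a, mul_sum, mul_assoc]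
    refine ⟨Q.coeff, fun hne => ?_, fun h0 => ?_, rc⟩
    · have := congrArg (eval (α : ℂ)) e
      rw [eval_map_algebraMap, show (α : ℂ) = algebraMap ℝ ℂ α from rfl, aeval_algebraMap_apply,
        minpoly.aeval, map_zero, eval_mul] at this
      have h2 := (mul_eq_zero.1 this.symm).resolve_left (by simpa [sub_eq_zero] using hne.symm)
      rwa [eval_eq_sum_range, dQ] at h2
    · refine no_short h1 ht hf hd (q := Q.coeff) (dQ ▸ mQ.coeff_natDegree)
        (eventually_atTop.2 ⟨n0, fun n hn => ?_⟩)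
      induction n, hn using Nat.le_induction with
      | base => exact h0
      | succ n hn ih => rw [rc n hn, ih, mul_zero]
  constructor
  · obtain ⟨q, -, q0, rc⟩ := key α (by
      rw [show (α : ℂ) = algebraMap ℝ ℂ α from rfl, aeval_algebraMap_apply, minpoly.aeval, map_zero])
    let N : Submodule ℤ ℂ := Submodule.span ℤ
      (Set.range fun n => ∑ l ∈ range (d + 1), q l * fl t α (n0 + n + l))
    have fg : N.FG := by
      refine Submodule.FG.of_le (Submodule.fg_span ((range (d + 1)).image q).finite_toSet)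
        (Submodule.span_le.2 ?_)
      rintro _ ⟨n, rfl⟩
      refine Submodule.sum_mem _ fun l hl => ?_
      rw [mul_comm, ← zsmul_eq_mul]
      exact Submodule.smul_mem _ _ (Submodule.subset_span (by simpa using ⟨l, by simpa using hl, rfl⟩))
    have ne : N ≠ ⊥ := fun h => q0 ((Submodule.span_eq_bot.1 h) _ ⟨0, rfl⟩)
    refine (isIntegral_algebraMap_iff (algebraMap ℝ ℂ).injective).1
      (isIntegral_of_smul_mem_submodule N ne fg _ fun x hx => ?_)
    induction hx using Submodule.span_induction with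
    | mem x hx =>
      obtain ⟨n, rfl⟩ := hx
      exact Submodule.subset_span ⟨n + 1, rc (n0 + n) (by omega)⟩
    | zero => simp
    | add x y _ _ hx hy => rw [smul_add]; exact N.add_mem hx hy
    | smul a x _ hx => rw [smul_comm]; exact N.smul_mem a hx
  · intro γ hγ hne
    obtain ⟨q, qa, q0, rc⟩ := key γ hγ
    by_contra hn
    have lo : ∀ n ≥ n0, ‖∑ l ∈ range (d + 1), q l * fl t α (n0 + l)‖ ≤
        ‖∑ l ∈ range (d + 1), q l * fl t α (n + l)‖ := by
      intro n hn'
      induction n, hn' using Nat.le_induction with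
      | base => exact le_rfl
      | succ n hn' ih =>
        rw [rc n hn', norm_mul]
        exact ih.trans (le_mul_of_one_le_left (norm_nonneg _) (not_lt.1 hn))
    have hf' : Tendsto (fun n : ℕ => ((Int.fract (t * α ^ n) : ℝ) : ℂ)) atTop (𝓝 0) := by
      simpa [Function.comp_def] using (Complex.continuous_ofReal.tendsto 0).comp hf
    have a := (tendsto_comb hf' q (d + 1)).norm
    rw [norm_zero] at a
    refine q0 (norm_le_zero_iff.1 (ge_of_tendsto a (eventually_atTop.2 ⟨n0, fun n hn' => ?_⟩)))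
    refine (lo n hn').trans_eq ?_
    have e : ∀ m, (fl t α m : ℂ) = t * α ^ m - (Int.fract (t * α ^ m) : ℝ) := fun m => by
      exact_mod_cast fract_eq t α m
    have z : ∑ l ∈ range (d + 1), q l * (t * α ^ (n + l)) = 0 := by
      rw [← mul_zero ((t : ℂ) * α ^ n), ← qa hne, mul_sum]
      exact sum_congr rfl fun l _ => by ring
    simp only [e, mul_sub, sum_sub_distrib, z, zero_sub, norm_neg]

end Pool.Agent.P.MP_0ff3a5_nt.R2
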