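import Pool.Agent.P.MP_0ff3a5_nt.R2.Geo

/-! A bounded near period, for an algebraic ratio. -/

namespace Pool.Agent.P.MP_0ff3a5_nt.R2
open Finset Filter Asymptotics Topology

variable {τ β : ℝ}

lemma fract_eq (τ β : ℝ) (n : ℕ) : (fl τ β n : ℝ) = τ * β ^ n - Int.fract (τ * β ^ n) :=
  (Int.self_sub_fract _).symm

lemma rel_eq (τ : ℝ) {ρ : ℕ → ℤ} {L : ℕ} (h0 : ∑ l ∈ range L, (ρ l : ℝ) * β ^ l = 0) (n : ℕ) :
    ((∑ l ∈ range L, ρ l * fl τ β (n + l) : ℤ) : ℝ) =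
      -∑ l ∈ range L, ρ l * Int.fract (τ * β ^ (n + l)) := by
  have : ∑ l ∈ range L, (ρ l : ℝ) * (τ * β ^ (n + l)) = 0 := by
    rw [← mul_zero (τ * β ^ n), ← h0, mul_sum]
    exact sum_congr rfl fun l _ => by ring
  push_cast
  simp only [fract_eq, mul_sub, sum_sub_distrib, this, zero_sub]

lemma tendsto_of_rec {f : ℕ → ℝ} (f0 : ∀ n, 0 ≤ f n) (f1 : ∀ n, f n ≤ 1) {ρ : ℕ → ℤ} {L : ℕ}
    (h1 : ∑ l ∈ range L, ρ l ≠ 0) (h : ∀ᶠ n in atTop, ∑ l ∈ range L, ρ l * f (n + l) = 0) :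
    Tendsto f atTop (𝓝 0) := by
  obtain ⟨n0, h⟩ := eventually_atTop.1 h
  have sh : ∀ N l, |∑ n ∈ range N, f (n + n0 + l) - ∑ n ∈ range N, f (n + n0)| ≤ l := by
    intro N l
    induction l with
    | zero => simp
    | succ l ih =>
      have e : ∑ n ∈ range N, f (n + n0 + (l + 1)) + f (0 + n0 + l) =
          ∑ n ∈ range N, f (n + n0 + l) + f (N + n0 + l) := by
        rw [← sum_range_succ (fun n => f (n + n0 + l)), sum_range_succ' (fun n => f (n + n0 + l))]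
        congr 1
        exact sum_congr rfl fun n _ => by congr 1; ring
      obtain ⟨i1, i2⟩ := abs_le.1 ih
      rw [abs_le]
      push_cast
      constructor <;> linarith [f0 (0 + n0 + l), f1 (0 + n0 + l), f0 (N + n0 + l), f1 (N + n0 + l)]
  have hs : Summable fun n => f (n + n0) := by
    refine summable_of_sum_range_le (c := ∑ l ∈ range L, |(ρ l : ℝ)| * l) (fun n => f0 _) fun N => ?_
    have z : ∑ l ∈ range L, (ρ l : ℝ) * ∑ n ∈ range N, f (n + n0 + l) = 0 := by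
      simp only [mul_sum]
      rw [sum_comm]
      exact sum_eq_zero fun n _ => h (n + n0) (by omega)
    have s0 : 0 ≤ ∑ n ∈ range N, f (n + n0) := sum_nonneg fun n _ => f0 _
    have a1 : (1 : ℝ) ≤ |∑ l ∈ range L, (ρ l : ℝ)| := by exact_mod_cast Int.one_le_abs h1
    have a2 : |∑ l ∈ range L, (ρ l : ℝ)| * ∑ n ∈ range N, f (n + n0) =
        |∑ l ∈ range L, (ρ l : ℝ) * (∑ n ∈ range N, f (n + n0 + l) - ∑ n ∈ range N, f (n + n0))| := by
      simp only [mul_sub, sum_sub_distrib, z, zero_sub, abs_neg, ← sum_mul]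
      rw [abs_mul, abs_of_nonneg s0]
    have a3 := abs_sum_le_sum_abs (fun l => (ρ l : ℝ) *
      (∑ n ∈ range N, f (n + n0 + l) - ∑ n ∈ range N, f (n + n0))) (range L)
    have a4 : ∑ l ∈ range L, |(ρ l : ℝ) *
        (∑ n ∈ range N, f (n + n0 + l) - ∑ n ∈ range N, f (n + n0))| ≤
        ∑ l ∈ range L, |(ρ l : ℝ)| * l := sum_le_sum fun l _ => by
      rw [abs_mul]; exact mul_le_mul_of_nonneg_left (sh N l) (abs_nonneg _)
    nlinarith
  exact (tendsto_add_atTop_iff_nat n0).1 hs.tendsto_atTop_zero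

lemma Geo.eq_zero (h : Geo τ β) {k : ℕ} {E : ℕ → ℤ} {D : ℤ} (hE : NP (fl τ β) β k E)
    (hD : ∀ n, |E n| ≤ D) (hs : Sep (fl τ β) D) : ∀ᶠ n in atTop, E n = 0 := by
  classical
  obtain ⟨ρ, C, hρ, l⟩ := h.gd.low0
  have h1 := h.h1
  have t1 := h.big
  have m := one_lt_inv h
  have hε : 0 < ρ * τ / 2 := by positivity
  filter_upwards [hE.bound hε, ev_le h1 m (τ / (β - 1)) 1,
    ev_le h1 (show (0 : ℝ) < τ by linarith) (2 * D) 0,
    ev_le h1 (show ρ * τ / 2 < ρ * τ by linarith) (ρ * (2 * D) + C + 1) 0] with n e1 e2 e3 e4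
  by_contra hn
  have a1 := (sg_bd h1 τ n).1
  have a2 : (sg (fl τ β) n : ℝ) ≤ sg (fl τ β) (n + k) := by
    exact_mod_cast h.gd.sg_mono (Nat.le_add_right n k)
  obtain ⟨d1, d2⟩ := abs_le.1 (hD n)
  have a3 : 2 * D ≤ sg (fl τ β) (n + k) := by
    exact_mod_cast (by linarith : (2 * D : ℝ) ≤ sg (fl τ β) (n + k))
  have a4 := l D (sg (fl τ β) (n + k) - D) (by omega) (by omega)
  have a5 : cnt (fl τ β) D (sg (fl τ β) (n + k) - D) ≤
      (Bad (fl τ β) (sg (fl τ β) (n + k)) (E n)).card := by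
    refine card_le_card fun x hx => ?_
    obtain ⟨b1, b2⟩ := mem_filter.1 hx
    obtain ⟨b3, b4⟩ := mem_Ico.1 b1
    refine mem_Bad.2 ⟨by omega, b2, by omega, by omega, fun b5 => ?_⟩
    have := hs _ _ b2 b5
    have := hs _ _ b5 b2
    omega
  have a6 : (cnt (fl τ β) D (sg (fl τ β) (n + k) - D) : ℝ) ≤
      bb (fl τ β) (sg (fl τ β) (n + k)) (E n) := by
    exact_mod_cast a5.trans (Nat.le_add_right _ _)
  rw [Real.norm_natCast, Real.norm_eq_abs, abs_of_pos (pow_pos (by linarith) n)] at e1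
  have a8 : ρ * (τ * β ^ n) ≤ ρ * sg (fl τ β) (n + k) := by gcongr; linarith
  push_cast at a4
  nlinarith

lemma Geo.np_one (h : Geo τ β) : NP (fl τ β) β 1 (fl τ β) := by
  refine o_of_le ((h.EX_o 1).const_mul_left 2) (Eventually.of_forall fun n => ?_)
  exact_mod_cast bb_one n

lemma Geo.np_all (h : Geo τ β) {g : ℕ → ℤ} (hg : NP (fl τ β) β 1 g) (H : ℕ)
    (hs : ∀ᶠ n in atTop, 0 < g (n + 1) ∧ g (n + 1) ≤ sg (fl τ β) n ∧
      sg (fl τ β) (n + 2) ≤ H * g (n + 1)) (k : ℕ) : NP (fl τ β) β (k + 1) (fl τ β) := by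
  induction k with
  | zero => exact h.np_one
  | succ k ih =>
    refine ih.ext (hg.shift (k + 1)) H ?_
    filter_upwards [(tendsto_add_atTop_nat k).eventually hs] with n ⟨e1, e2, e3⟩
    have := h.gd.mono (Nat.le_add_right n k)
    have := sg_succ (fl τ β) (n + k)
    rw [abs_of_pos (h.gd.pos n)]
    exact ⟨e1, by rw [← add_assoc]; omega, e3⟩

lemma Geo.np_rel (h : Geo τ β) (ha : ∀ k, NP (fl τ β) β (k + 1) (fl τ β)) (ρ : ℕ → ℤ) (L : ℕ) :
    ∃ k, NP (fl τ β) β k fun n => ∑ l ∈ range L, ρ l * fl τ β (n + l) := by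
  have h1 := h.h1
  have t1 := h.big
  have m := one_lt_inv h
  obtain ⟨w, hw⟩ := pow_unbounded_of_one_lt (∑ l ∈ range L, |(ρ l : ℝ)|) h1
  refine ⟨L + w, NP.sum (G := fun l n => ρ l * fl τ β (n + l)) (fun l hl => NP.mul ?_ _) ?_⟩
  · have := (ha (L + w - l - 1)).shift l
    rwa [show l + (L + w - l - 1 + 1) = L + w by omega] at this
  · have p : 0 < β ^ (L + w) := pow_pos (by linarith) _
    filter_upwards [ev_le h1 (mul_lt_mul_of_pos_right m p) (τ / (β - 1) + (L + w)) 1] with n hn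
    have a1 := (sg_bd h1 τ (n + (L + w))).1
    have a2 : ∑ l ∈ range L, |(ρ l : ℝ) * fl τ β (n + l)| ≤
        ∑ l ∈ range L, |(ρ l : ℝ)| * (τ * β ^ (n + L)) := sum_le_sum fun l hl => by
      have b1 : (0 : ℝ) < fl τ β (n + l) := by exact_mod_cast h.gd.pos _
      have b2 : (fl τ β (n + l) : ℝ) ≤ fl τ β (n + L) := by
        exact_mod_cast h.gd.mono (by have := mem_range.1 hl; omega)
      rw [abs_mul, abs_of_pos b1]
      exact mul_le_mul_of_nonneg_left (b2.trans (fl_le _ _ _)) (abs_nonneg _)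
    rw [← sum_mul] at a2
    have a3 : (∑ l ∈ range L, |(ρ l : ℝ)|) * (τ * β ^ (n + L)) ≤ β ^ w * (τ * β ^ (n + L)) := by
      gcongr
    have e1 : β ^ w * (τ * β ^ (n + L)) = τ * β ^ (L + w) * β ^ n := by ring
    have e2 : τ / (β - 1) * β ^ (n + (L + w)) = τ / (β - 1) * β ^ (L + w) * β ^ n := by ring
    push_cast at a1
    have : ((∑ l ∈ range L, |ρ l * fl τ β (n + l)| : ℤ) : ℝ) ≤ sg (fl τ β) (n + (L + w)) := by
      push_cast; linarith
    exact_mod_cast this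

/-- the second period -/
noncomputable def BB (τ β : ℝ) (κ n : ℕ) : ℤ :=
  fl τ β (n + (κ + 1)) - ∑ i ∈ range κ, fl τ β (n + (i + 1))

lemma Geo.np_BB (h : Geo τ β) (κ : ℕ) : NP (fl τ β) β 1 (BB τ β κ) := by
  refine o_of_le ((h.EX_o (κ + 2)).const_mul_left 4) (Eventually.of_forall fun n => ?_)
  have := bb_diff (c := fl τ β) (n := n + 1) (s := n + (κ + 2)) (by omega)
    (F := Ico (n + 1) (n + 1 + κ)) (G := {n + (κ + 1)}) (Ico_subset_Ico le_rfl (by omega))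
    (by simp)
  rw [sum_singleton, sum_Ico_eq_sum_range, add_tsub_cancel_left] at this
  simp only [add_assoc, add_comm 1] at this
  exact_mod_cast this

lemma BB_bd (τ β : ℝ) (κ n : ℕ) :
    |(BB τ β κ n : ℝ) - τ * (β ^ (κ + 1) - ∑ i ∈ range κ, β ^ (i + 1)) * β ^ n| ≤ κ + 1 := by
  have a1 : ∑ i ∈ range κ, (fl τ β (n + (i + 1)) : ℝ) ≤ ∑ i ∈ range κ, τ * β ^ (i + 1) * β ^ n :=
    sum_le_sum fun i _ => (fl_le _ _ _).trans_eq (by ring)
  have a2 : ∑ i ∈ range κ, (τ * β ^ (i + 1) * β ^ n - 1) ≤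
      ∑ i ∈ range κ, (fl τ β (n + (i + 1)) : ℝ) :=
    sum_le_sum fun i _ => le_trans (le_of_eq (by ring)) (lt_fl _ _ _).le
  rw [sum_sub_distrib, sum_const, card_range, nsmul_one] at a2
  rw [← sum_mul, ← mul_sum] at a1 a2
  have a3 := fl_le τ β (n + (κ + 1))
  have a4 := lt_fl τ β (n + (κ + 1))
  rw [pow_add] at a3 a4
  have : (0 : ℝ) ≤ κ := Nat.cast_nonneg _
  unfold BB
  push_cast
  rw [abs_le]
  constructor <;> nlinarith

lemma exists_kappa (h1 : 1 < β) (h2 : β < 2) : ∃ κ : ℕ,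
    0 < β ^ (κ + 1) - ∑ i ∈ range κ, β ^ (i + 1) ∧ β ^ (κ + 1) - ∑ i ∈ range κ, β ^ (i + 1) ≤ 1 := by
  classical
  have ex : ∃ j : ℕ, 1 ≤ β ^ j * (2 - β) := by
    obtain ⟨j, hj⟩ := pow_unbounded_of_one_lt (1 / (2 - β)) h1
    exact ⟨j, ((div_lt_iff₀ (by linarith)).1 hj).le⟩
  have g : ∀ κ : ℕ, (β - 1) * ∑ i ∈ range κ, β ^ (i + 1) = β ^ (κ + 1) - β := fun κ => by
    induction κ with
    | zero => simp
    | succ κ ih => rw [sum_range_succ, mul_add, ih]; ring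
  have s := Nat.find_spec ex
  have m := fun j => Nat.find_min ex (m := j)
  generalize Nat.find ex = j at s m
  rcases j with _ | κ
  · simp at s; linarith
  · have m' := not_le.1 (m κ (by omega))
    have e := g κ
    rw [pow_succ] at s e
    refine ⟨κ, ?_, ?_⟩
    · refine pos_of_mul_pos_left (b := β - 1) ?_ (by linarith)
      rw [pow_succ]; nlinarith
    · refine le_of_mul_le_mul_left (a := β - 1) ?_ (by linarith)
      rw [pow_succ]; nlinarith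

lemma Geo.small (h : Geo τ β) {g : ℕ → ℤ} {γ A : ℝ} (g0 : 0 < γ) (g1 : γ ≤ 1 / 2)
    (hb : ∀ n, |(g n : ℝ) - τ * γ * β ^ n| ≤ A) : ∃ H : ℕ, ∀ᶠ n in atTop, 0 < g (n + 1) ∧
      g (n + 1) ≤ sg (fl τ β) n ∧ sg (fl τ β) (n + 2) ≤ H * g (n + 1) := by
  have h1 := h.h1
  have h2 := h.h2
  have t1 := h.big
  have m := one_lt_inv h
  have p : 0 < τ * γ * β := by positivity
  obtain ⟨H, hH⟩ := exists_nat_gt (τ / (β - 1) * β ^ 2 / (τ * γ * β))
  rw [div_lt_iff₀ p] at hH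
  have q : τ * γ * β < τ / (β - 1) := by
    nlinarith [mul_le_mul_of_nonneg_left g1 (by positivity : 0 ≤ τ * β)]
  refine ⟨H, ?_⟩
  filter_upwards [ev_le h1 p (A + 1) 0, ev_le h1 q (A + τ / (β - 1)) 1, ev_le h1 hH (H * A) 0]
    with n e1 e2 e3
  obtain ⟨b1, b2⟩ := abs_le.1 (hb (n + 1))
  rw [pow_succ'] at b1 b2
  have a1 := (sg_bd h1 τ n).1
  have a2 := (sg_bd h1 τ (n + 2)).2
  rw [pow_add] at a2
  have a3 : (H : ℝ) * (τ * γ * (β * β ^ n) - A) ≤ H * g (n + 1) := by gcongr; linarith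
  refine ⟨?_, ?_, ?_⟩
  · exact_mod_cast (by linarith : (0 : ℝ) < g (n + 1))
  · exact_mod_cast (by linarith : (g (n + 1) : ℝ) ≤ sg (fl τ β) n)
  · exact_mod_cast (by linarith : (sg (fl τ β) (n + 2) : ℝ) ≤ H * g (n + 1))

lemma Geo.np_AA (h : Geo τ β) {κ : ℕ} (r0 : 0 < β ^ (κ + 1) - ∑ i ∈ range κ, β ^ (i + 1))
    (r1 : β ^ (κ + 1) - ∑ i ∈ range κ, β ^ (i + 1) ≤ 1) :
    NP (fl τ β) β 1 fun n => fl τ β n + -BB τ β κ n := by
  refine h.np_one.add (h.np_BB κ).neg ?_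
  have h1 := h.h1
  have t1 := h.big
  filter_upwards [ev_le h1 (one_lt_inv h) (κ + 1 + τ / (β - 1)) 1] with n hn
  obtain ⟨b1, b2⟩ := abs_le.1 (BB_bd τ β κ n)
  have a1 := (sg_bd h1 τ n).1
  generalize β ^ (κ + 1) - ∑ i ∈ range κ, β ^ (i + 1) = r at *
  have p : 0 < τ * β ^ n := by positivity
  have a2 : |(BB τ β κ n : ℝ)| ≤ sg (fl τ β) n := by
    rw [abs_le]; constructor <;> nlinarith
  have a3 : |BB τ β κ n| ≤ sg (fl τ β) n := by exact_mod_cast a2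
  rw [abs_neg, abs_of_pos (h.gd.pos n), sg_succ]
  omega

lemma exists_rho (h1 : 1 < β) (ha : IsAlgebraic ℚ β) : ∃ (ρ : ℕ → ℤ) (L : ℕ),
    ∑ l ∈ range L, (ρ l : ℝ) * β ^ l = 0 ∧ ∑ l ∈ range L, ρ l ≠ 0 := by
  obtain ⟨p, p0, hp⟩ := (IsFractionRing.isAlgebraic_iff ℤ ℚ ℝ).2 ha
  obtain ⟨q, e, hq⟩ := Polynomial.exists_eq_pow_rootMultiplicity_mul_and_not_dvd p p0 1
  refine ⟨q.coeff, q.natDegree + 1, ?_, fun h => hq (Polynomial.dvd_iff_isRoot.2 ?_)⟩
  · rw [e, map_mul, map_pow, mul_eq_zero] at hp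
    rcases hp with hp | hp
    · have := pow_eq_zero_iff (by rintro h; simp [h] at hp) |>.1 hp
      simp at this; linarith
    · simpa [Polynomial.aeval_eq_sum_range] using hp
  · simpa [Polynomial.IsRoot, Polynomial.eval_eq_sum_range] using h

lemma exists_rel (h1 : 1 < β) (h2 : β < 2) (ha : IsAlgebraic ℚ β) : ∃ (ρ : ℕ → ℤ) (L : ℕ),
    ∑ l ∈ range L, (ρ l : ℝ) * β ^ l = 0 ∧ ∑ l ∈ range L, ρ l ≠ 0 ∧ ∀ τ, Geo τ β →
      ∃ k, NP (fl τ β) β k fun n => ∑ l ∈ range L, ρ l * fl τ β (n + l) := by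
  obtain ⟨κ, r0, r1⟩ := exists_kappa h1 h2
  rcases r1.eq_or_lt with e | r2
  · have k0 : κ ≠ 0 := by rintro rfl; simp at e; linarith
    obtain ⟨ρ, f, f'⟩ : ∃ ρ : ℕ → ℤ, (∀ l ∈ range (κ + 1), ρ l = 1) ∧ ρ (κ + 1) = -1 :=
      ⟨fun l => if l = κ + 1 then -1 else 1, fun l hl => if_neg (by have := mem_range.1 hl; omega),
        if_pos rfl⟩
    refine ⟨ρ, κ + 2, ?_, ?_, fun τ h => ⟨1, ?_⟩⟩
    · rw [sum_range_succ, sum_congr rfl fun l hl => by rw [f l hl], sum_range_succ', f']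
      push_cast
      simp only [one_mul]
      linarith
    · rw [sum_range_succ, sum_congr rfl f, f']
      simpa using k0
    · convert h.np_AA r0 r1 using 2 with n
      rw [sum_range_succ, sum_congr rfl fun l hl => by rw [f l hl], sum_range_succ', BB, f']
      simp only [one_mul, add_zero]
      ring
  · obtain ⟨ρ, L, a1, a2⟩ := exists_rho h1 ha
    refine ⟨ρ, L, a1, a2, fun τ h => h.np_rel ?_ ρ L⟩
    rcases le_total (β ^ (κ + 1) - ∑ i ∈ range κ, β ^ (i + 1)) (1 / 2) with r3 | r3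
    · obtain ⟨H, hH⟩ := h.small r0 r3 (BB_bd τ β κ)
      exact h.np_all (h.np_BB κ) H hH
    · obtain ⟨H, hH⟩ := h.small (g := fun n => fl τ β n + -BB τ β κ n) (A := κ + 2)
        (sub_pos.2 r2) (by linarith) fun n => by
          obtain ⟨b1, b2⟩ := abs_le.1 (BB_bd τ β κ n)
          have := fl_le τ β n
          have := lt_fl τ β n
          push_cast
          rw [abs_le]
          constructor <;> linarith
      exact h.np_all (h.np_AA r0 r1) H hH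

/-- If the subset sums are far apart then the fractional parts tend to zero. -/
theorem sep_tendsto (h1 : 1 < β) (h2 : β < 2) (ha : IsAlgebraic ℚ β) : ∃ D : ℕ, ∀ τ, Geo τ β →
    Sep (fl τ β) D → Tendsto (fun n : ℕ => Int.fract (τ * β ^ n)) atTop (𝓝 0) := by
  obtain ⟨ρ, L, a1, a2, H⟩ := exists_rel h1 h2 ha
  refine ⟨∑ l ∈ range L, (ρ l).natAbs, fun τ h hs => ?_⟩
  obtain ⟨k, hk⟩ := H τ h
  refine tendsto_of_rec (fun n => Int.fract_nonneg _) (fun n => (Int.fract_lt_one _).le) a2 ?_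
  have bd : ∀ n, |∑ l ∈ range L, ρ l * fl τ β (n + l)| ≤ (∑ l ∈ range L, (ρ l).natAbs : ℕ) := by
    intro n
    have : |((∑ l ∈ range L, ρ l * fl τ β (n + l) : ℤ) : ℝ)| ≤ ∑ l ∈ range L, |(ρ l : ℝ)| := by
      rw [rel_eq τ a1, abs_neg]
      refine (abs_sum_le_sum_abs _ _).trans (sum_le_sum fun l _ => ?_)
      rw [abs_mul, abs_of_nonneg (Int.fract_nonneg (τ * β ^ (n + l)))]
      exact mul_le_of_le_one_right (abs_nonneg _) (Int.fract_lt_one _).le
    push_cast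
    exact_mod_cast this
  filter_upwards [h.eq_zero hk bd hs] with n hn
  have := rel_eq τ a1 n
  rw [hn] at this
  simpa using this

end Pool.Agent.P.MP_0ff3a5_nt.R2
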